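import Mathlib
import Pool.Agent.H931R3.Bal1

set_option autoImplicit false

/-!
# Linear extensions: removing and reinserting one element
-/

open Finset Classical

namespace Pool.Agent.TH447.KS

variable {P : Type} [Fintype P]

/-- bijections onto an initial segment of the natural numbers -/
abbrev Ord (P : Type) [Fintype P] := P ≃ Fin (Fintype.card P)

/-- linear extensions of the relation `r` -/
noncomputable def Lin (r : P → P → Prop) : Finset (Ord P) :=
  univ.filter (fun f => ∀ a b, r a b → f a < f b)

lemma mem_Lin {r : P → P → Prop} {f : Ord P} : f ∈ Lin r ↔ ∀ a b, r a b → f a < f b := by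
  simp [Lin]

/-- number of elements that come before all elements of `S` -/
noncomputable def bef (f : Ord P) (S : P → Prop) : ℕ :=
  (univ.filter (fun z => ∀ s, S s → f z < f s)).card

/-- number of elements different from `y` that come before all elements of `S` -/
noncomputable def bef' (f : Ord P) (y : P) (S : P → Prop) : ℕ :=
  (univ.filter (fun z => z ≠ y ∧ ∀ s, S s → f z < f s)).card

/-- same order away from `y` -/
def Same (y : P) (f g : Ord P) : Prop := ∀ a b, a ≠ y → b ≠ y → (f a < f b ↔ g a < g b)

lemma Same.refl (y : P) (f : Ord P) : Same y f f := fun _ _ _ _ => Iff.rfl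

lemma Same.symm {y : P} {f g : Ord P} (h : Same y f g) : Same y g f :=
  fun a b ha hb => (h a b ha hb).symm

lemma Same.trans {y : P} {f g k : Ord P} (h : Same y f g) (h' : Same y g k) : Same y f k :=
  fun a b ha hb => (h a b ha hb).trans (h' a b ha hb)

lemma card_lt_val (f : Ord P) (t : ℕ) (ht : t ≤ Fintype.card P) :
    (univ.filter (fun z => (f z : ℕ) < t)).card = t := by
  have h1 : (univ.filter (fun z => (f z : ℕ) < t)).card =
      (Finset.filter (fun i : Fin (Fintype.card P) => (i : ℕ) < t) Finset.univ).card := by
    apply Finset.card_bij (fun z _ => f z)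
    · intro a ha
      simpa using ha
    · intro a _ b _ h
      exact f.injective h
    · intro b hb
      exact ⟨f.symm b, by simpa using hb, by simp⟩
  rw [h1]
  rcases ht.lt_or_eq with h | h
  · have h2 : (Finset.filter (fun i : Fin (Fintype.card P) => (i : ℕ) < t) Finset.univ) =
        Finset.Iio (⟨t, h⟩ : Fin (Fintype.card P)) := by
      ext i
      simp [Fin.lt_def]
    rw [h2, Fin.card_Iio]
  · have h2 : (Finset.filter (fun i : Fin (Fintype.card P) => (i : ℕ) < t) Finset.univ) =
        Finset.univ := by
      ext i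
      have := i.2
      simp only [mem_filter, mem_univ, true_and, iff_true]
      omega
    rw [h2, card_univ, Fintype.card_fin]
    exact h.symm

lemma pos_eq (f : Ord P) (y : P) : (f y : ℕ) = (univ.filter (fun z => f z < f y)).card := by
  have h := card_lt_val f (f y : ℕ) (f y).2.le
  rw [← h]
  rw [h]
  conv_lhs => rw [← h]
  congr 1

/-- inserting `y` at a given position -/
lemma exists_insert (f : Ord P) (y : P) (t : ℕ) (ht : t < Fintype.card P) :
    ∃ g : Ord P, Same y g f ∧ (g y : ℕ) = t := by
  set c : ℕ := if t ≤ (f y : ℕ) then t else t + 1 with hc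
  have hcn : c ≤ Fintype.card P := by
    rw [hc]; split_ifs <;> omega
  let key : P → ℕ := fun a => if a = y then 2 * c else 2 * (f a : ℕ) + 1
  have hkey : Function.Injective key := by
    intro a b hab
    simp only [key] at hab
    split_ifs at hab with h1 h2 h2
    · rw [h1, h2]
    · omega
    · omega
    · exact f.injective (Fin.ext (by omega))
  obtain ⟨g, hg⟩ := Pool.Agent.H931R3.Bal.exists_rank key hkey (rfl : Fintype.card P = _)
  refine ⟨g, ?_, ?_⟩
  · intro a b ha hb
    rw [hg]
    simp only [key, if_neg ha, if_neg hb]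
    rw [Fin.lt_def]
    omega
  · rw [pos_eq]
    have h1 : (univ.filter (fun z => g z < g y)) =
        (univ.filter (fun z => (f z : ℕ) < c)).erase y := by
      ext z
      simp only [mem_filter, mem_univ, true_and, mem_erase]
      rw [hg]
      by_cases hz : z = y
      · simp [key, hz]
      · simp only [key, if_neg hz, if_true, ne_eq, hz, not_false_eq_true, true_and]
        omega
    rw [h1]
    by_cases hty : t ≤ (f y : ℕ)
    · have hct : c = t := by rw [hc, if_pos hty]
      rw [Finset.erase_eq_of_notMem, card_lt_val f c hcn, hct]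
      simp only [mem_filter, mem_univ, true_and]
      omega
    · have hct : c = t + 1 := by rw [hc, if_neg hty]
      rw [Finset.card_erase_of_mem, card_lt_val f c hcn, hct]
      · rfl
      · simp only [mem_filter, mem_univ, true_and]
        omega

lemma same_subset {y : P} {f g : Ord P} (h : Same y f g) (hy : f y = g y) {z : P} (hz : z ≠ y)
    (hzy : f z < f y) : g z < g y := by
  by_contra hcon
  have hgz : g y < g z := lt_of_le_of_ne (not_lt.1 hcon) (fun e => hz (g.injective e).symm)
  have h1 : (univ.filter (fun w => g w < g y)) ⊆ (univ.filter (fun w => f w < f y)).erase z := by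
    intro w hw
    simp only [mem_filter, mem_univ, true_and, mem_erase] at hw ⊢
    have hwy : w ≠ y := by rintro rfl; exact lt_irrefl _ hw
    refine ⟨?_, ?_⟩
    · rintro rfl; exact absurd hw (not_lt.2 hgz.le)
    · exact ((h w z hwy hz).2 (hw.trans hgz)).trans hzy
  have h2 := card_le_card h1
  rw [card_erase_of_mem (by simpa using hzy), ← pos_eq, ← pos_eq, hy] at h2
  have h3 : 0 < (g y : ℕ) := by
    rw [← hy]
    exact lt_of_le_of_lt (Nat.zero_le _) (Fin.lt_def.1 hzy)
  omega

/-- an order is determined by its restriction away from `y` and the position of `y` -/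
lemma same_eq {y : P} {f g : Ord P} (h : Same y f g) (hy : f y = g y) : f = g := by
  apply Pool.Agent.H931R3.Bal.rank_unique
  intro a b
  by_cases ha : a = y
  · subst ha
    by_cases hb : b = a
    · subst hb; simp
    · have h1 : ¬ f b < f a ↔ ¬ g b < g a :=
        not_congr ⟨fun k => same_subset h hy hb k, fun k => same_subset h.symm hy.symm hb k⟩
      rw [not_lt, not_lt] at h1
      have e1 : f a ≠ f b := fun e => hb (f.injective e).symm
      have e2 : g a ≠ g b := fun e => hb (g.injective e).symm
      constructor
      · intro k; exact lt_of_le_of_ne (h1.1 k.le) e2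
      · intro k; exact lt_of_le_of_ne (h1.2 k.le) e1
  · by_cases hb : b = y
    · subst hb
      exact ⟨fun k => same_subset h hy ha k, fun k => same_subset h.symm hy.symm ha k⟩
    · exact h a b ha hb

/-- classifier of the classes -/
def rho (y : P) (f : Ord P) : P → P → Prop := fun a b => a ≠ y ∧ b ≠ y ∧ f a < f b

lemma rho_eq {y : P} {f g : Ord P} : rho y f = rho y g ↔ Same y f g := by
  constructor
  · intro h a b ha hb
    have := congrFun (congrFun h a) b
    simp only [rho, ha, hb, ne_eq, not_false_eq_true, true_and, eq_iff_iff] at this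
    exact this
  · intro h
    funext a b
    simp only [rho, eq_iff_iff]
    constructor
    · rintro ⟨h1, h2, h3⟩; exact ⟨h1, h2, (h a b h1 h2).1 h3⟩
    · rintro ⟨h1, h2, h3⟩; exact ⟨h1, h2, (h a b h1 h2).2 h3⟩

/-- comparing sums class by class -/
lemma sum_le_sum_classes (r : P → P → Prop) (y : P) (A B : Ord P → ℝ)
    (h : ∀ f₀ ∈ Lin r, ∑ f ∈ (Lin r).filter (fun f => Same y f f₀), A f ≤
      ∑ f ∈ (Lin r).filter (fun f => Same y f f₀), B f) :
    ∑ f ∈ Lin r, A f ≤ ∑ f ∈ Lin r, B f := by
  rw [← Finset.sum_fiberwise_of_maps_to (s := Lin r) (t := (Lin r).image (rho y)) (g := rho y)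
    (fun f hf => mem_image_of_mem _ hf) A,
    ← Finset.sum_fiberwise_of_maps_to (s := Lin r) (t := (Lin r).image (rho y)) (g := rho y)
    (fun f hf => mem_image_of_mem _ hf) B]
  apply Finset.sum_le_sum
  intro c hc
  obtain ⟨f₀, hf₀, rfl⟩ := mem_image.1 hc
  have e : (Lin r).filter (fun f => rho y f = rho y f₀) =
      (Lin r).filter (fun f => Same y f f₀) := by
    ext f
    simp only [mem_filter, rho_eq]
  rw [e]
  exact h f₀ hf₀

lemma bef'_same {y : P} {f g : Ord P} (h : Same y f g) (S : P → Prop) (hS : ¬ S y) :
    bef' f y S = bef' g y S := by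
  unfold bef'
  congr 1
  ext z
  simp only [mem_filter, mem_univ, true_and]
  constructor
  · rintro ⟨h1, h2⟩
    exact ⟨h1, fun s hs => (h z s h1 (fun e => hS (e ▸ hs))).1 (h2 s hs)⟩
  · rintro ⟨h1, h2⟩
    exact ⟨h1, fun s hs => (h z s h1 (fun e => hS (e ▸ hs))).2 (h2 s hs)⟩

lemma bef_eq (f : Ord P) (y : P) (S : P → Prop) :
    bef f S = bef' f y S + if ∀ s, S s → f y < f s then 1 else 0 := by
  unfold bef bef'
  have h1 : (univ.filter (fun z => z ≠ y ∧ ∀ s, S s → f z < f s)) =
      (univ.filter (fun z => ∀ s, S s → f z < f s)).erase y := by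
    ext z
    simp only [mem_filter, mem_univ, true_and, mem_erase]
  rw [h1]
  split_ifs with h
  · rw [card_erase_of_mem (by simpa using h)]
    have : 0 < (univ.filter (fun z => ∀ s, S s → f z < f s)).card :=
      card_pos.2 ⟨y, by simpa using h⟩
    omega
  · rw [erase_eq_of_notMem (by simpa using h)]
    rfl

lemma bef_mono (f : Ord P) {S T : P → Prop} (h : ∀ s, S s → T s) : bef f T ≤ bef f S := by
  unfold bef
  apply card_le_card
  intro z hz
  simp only [mem_filter, mem_univ, true_and] at hz ⊢
  exact fun s hs => hz s (h s hs)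

lemma bef'_mono (f : Ord P) (y : P) {S T : P → Prop} (h : ∀ s, S s → T s) :
    bef' f y T ≤ bef' f y S := by
  unfold bef'
  apply card_le_card
  intro z hz
  simp only [mem_filter, mem_univ, true_and] at hz ⊢
  exact ⟨hz.1, fun s hs => hz.2 s (h s hs)⟩

lemma bef'_lt (f : Ord P) (y : P) (S : P → Prop) : bef' f y S < Fintype.card P := by
  unfold bef'
  refine lt_of_lt_of_eq (Finset.card_lt_card (t := Finset.univ) ?_) Finset.card_univ
  rw [ssubset_iff_of_subset (subset_univ _)]
  exact ⟨y, mem_univ _, by simp⟩

end Pool.Agent.TH447.KS
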