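import Mathlib
import Pool.Agent.TH447.KS.Basic

set_option autoImplicit false

/-!
# The key inequality: how often an element comes after the first element of a set
-/

open Finset Classical

namespace Pool.Agent.TH447.KS

variable {P : Type} [Fintype P]

lemma mem_class {r : P → P → Prop} {y : P} {f₀ g : Ord P} (hf₀ : f₀ ∈ Lin r)
    (hg : Same y g f₀) (h1 : ∀ w, r w y → g w < g y) (h2 : ∀ w, r y w → g y < g w) :
    g ∈ Lin r := by
  rw [mem_Lin] at hf₀ ⊢
  intro a b hab
  by_cases ha : a = y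
  · subst ha; exact h2 b hab
  · by_cases hb : b = y
    · subst hb; exact h1 a hab
    · exact (hg a b ha hb).2 (hf₀ a b hab)

lemma pos_lt {g : Ord P} {y w : P} {S : P → Prop} (hw : w ≠ y)
    (hwS : ∀ s, S s → g w < g s) (hle : bef' g y S ≤ (g y : ℕ)) : g w < g y := by
  by_contra hcon
  have hgw : g y < g w := lt_of_le_of_ne (not_lt.1 hcon) (fun e => hw (g.injective e).symm)
  have h1 : (univ.filter (fun z => g z < g y)) ⊆
      (univ.filter (fun z => z ≠ y ∧ ∀ s, S s → g z < g s)).erase w := by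
    intro z hz
    simp only [mem_filter, mem_univ, true_and, mem_erase] at hz ⊢
    refine ⟨?_, ?_, ?_⟩
    · rintro rfl; exact absurd hz (not_lt.2 hgw.le)
    · rintro rfl; exact lt_irrefl _ hz
    · intro s hs; exact (hz.trans hgw).trans (hwS s hs)
  have h2 := card_le_card h1
  have hmem : w ∈ univ.filter (fun z => z ≠ y ∧ ∀ s, S s → g z < g s) := by
    simp only [mem_filter, mem_univ, true_and]
    exact ⟨hw, hwS⟩
  rw [card_erase_of_mem hmem, ← pos_eq] at h2
  have h3 : 0 < (univ.filter (fun z => z ≠ y ∧ ∀ s, S s → g z < g s)).card :=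
    card_pos.2 ⟨w, hmem⟩
  unfold bef' at hle
  omega

lemma pos_gt {g : Ord P} {y s : P} {S : P → Prop} (hsy : s ≠ y) (hs : S s)
    (hle : (g y : ℕ) ≤ bef' g y S) : g y < g s := by
  by_contra hcon
  have hgs : g s < g y := lt_of_le_of_ne (not_lt.1 hcon) (fun e => hsy (g.injective e))
  have h1 : (univ.filter (fun z => z ≠ y ∧ ∀ s, S s → g z < g s)) ⊆
      (univ.filter (fun z => g z < g y)).erase s := by
    intro z hz
    simp only [mem_filter, mem_univ, true_and, mem_erase] at hz ⊢
    have := hz.2 s hs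
    refine ⟨?_, this.trans hgs⟩
    rintro rfl; exact lt_irrefl _ this
  have h2 := card_le_card h1
  have hmem : s ∈ univ.filter (fun z => g z < g y) := by
    simpa using hgs
  have h3 : 0 < (univ.filter (fun z => g z < g y)).card := card_pos.2 ⟨s, hmem⟩
  rw [card_erase_of_mem hmem] at h2
  rw [pos_eq] at hle
  unfold bef' at hle
  omega

/-- the class of `f₀` has at least `α - γ + 1` elements -/
lemma card_class_ge {r : P → P → Prop} {y : P} {f₀ : Ord P} (hf₀ : f₀ ∈ Lin r) (T : P → Prop)
    (hyT : ¬ T y) (hDT : ∀ w t, r w y → T t → r w t) :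
    bef' f₀ y (r y) + 1 - bef' f₀ y T ≤ ((Lin r).filter (fun f => Same y f f₀)).card := by
  have hryy : ¬ r y y := fun h => lt_irrefl _ ((mem_Lin.1 hf₀) y y h)
  have h1 : Finset.Icc (bef' f₀ y T) (bef' f₀ y (r y)) ⊆
      ((Lin r).filter (fun f => Same y f f₀)).image (fun f => (f y : ℕ)) := by
    intro t ht
    rw [mem_Icc] at ht
    obtain ⟨g, hg, hgt⟩ := exists_insert f₀ y t (lt_of_le_of_lt ht.2 (bef'_lt _ _ _))
    rw [mem_image]
    refine ⟨g, ?_, hgt⟩
    rw [mem_filter]
    refine ⟨?_, hg⟩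
    have e1 : bef' g y T = bef' f₀ y T := bef'_same hg T hyT
    have e2 : bef' g y (r y) = bef' f₀ y (r y) := bef'_same hg (r y) hryy
    refine mem_class hf₀ hg ?_ ?_
    · intro w hw
      have hwy : w ≠ y := by rintro rfl; exact hryy hw
      refine pos_lt (S := T) hwy ?_ (by rw [e1, hgt]; exact ht.1)
      intro s hs
      exact (hg w s hwy (fun e => hyT (e ▸ hs))).2 ((mem_Lin.1 hf₀) w s (hDT w s hw hs))
    · intro w hw
      have hwy : w ≠ y := by rintro rfl; exact hryy hw
      exact pos_gt (S := r y) hwy hw (by rw [e2, hgt]; exact ht.2)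
  have h2 := (card_le_card h1).trans card_image_le
  rw [Nat.card_Icc] at h2
  exact h2

/-- at most `α - β` elements of the class put `y` after an element of `S` -/
lemma card_event_le {r : P → P → Prop} {y : P} {f₀ : Ord P} (S : P → Prop)
    (hyS : ¬ S y) (hryy : ¬ r y y) :
    (((Lin r).filter (fun f => Same y f f₀)).filter (fun f => ∃ s, S s ∧ f s < f y)).card ≤
      bef' f₀ y (r y) - bef' f₀ y S := by
  have h1 : (((Lin r).filter (fun f => Same y f f₀)).filter
      (fun f => ∃ s, S s ∧ f s < f y)).image (fun f => (f y : ℕ)) ⊆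
      Finset.Ioc (bef' f₀ y S) (bef' f₀ y (r y)) := by
    intro t ht
    rw [mem_image] at ht
    obtain ⟨f, hf, rfl⟩ := ht
    rw [mem_filter, mem_filter] at hf
    obtain ⟨⟨hfr, hfs⟩, s, hs, hsy⟩ := hf
    rw [mem_Ioc, ← bef'_same hfs S hyS, ← bef'_same hfs (r y) hryy]
    constructor
    · by_contra hcon
      have := pos_gt (g := f) (y := y) (s := s) (S := S) (fun e => hyS (e ▸ hs)) hs
        (not_lt.1 hcon)
      exact absurd hsy (not_lt.2 this.le)
    · rw [pos_eq]
      unfold bef'
      apply card_le_card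
      intro z hz
      simp only [mem_filter, mem_univ, true_and] at hz ⊢
      refine ⟨?_, fun u hu => hz.trans ((mem_Lin.1 hfr) y u hu)⟩
      rintro rfl; exact lt_irrefl _ hz
  have h2 : (((Lin r).filter (fun f => Same y f f₀)).filter
      (fun f => ∃ s, S s ∧ f s < f y)).card = ((((Lin r).filter (fun f => Same y f f₀)).filter
      (fun f => ∃ s, S s ∧ f s < f y)).image (fun f => (f y : ℕ))).card := by
    rw [card_image_of_injOn]
    intro f hf g hg hfg
    rw [mem_coe, mem_filter, mem_filter] at hf hg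
    exact same_eq (hf.1.2.trans hg.1.2.symm) (Fin.ext hfg)
  rw [h2]
  refine (card_le_card h1).trans ?_
  rw [Nat.card_Ioc]

/-- The key inequality. -/
theorem key (r : P → P → Prop) (y : P) (S T : P → Prop) (hyS : ∀ s, r y s → S s)
    (hST : ∀ s, S s → T s) (hyT : ¬ T y) (hDT : ∀ w t, r w y → T t → r w t) :
    ∑ f ∈ Lin r, (if ∃ s, S s ∧ f s < f y then (1 : ℝ) else 0) ≤
      ∑ f ∈ Lin r, ((bef f (r y) : ℝ) - bef f S) / ((bef f (r y) : ℝ) - bef f T) := by
  apply sum_le_sum_classes r y
  intro f₀ hf₀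
  have hryy : ¬ r y y := fun h => lt_irrefl _ ((mem_Lin.1 hf₀) y y h)
  have hyS' : ¬ S y := fun h => hyT (hST y h)
  set K := (Lin r).filter (fun f => Same y f f₀) with hK
  set α := bef' f₀ y (r y) with hα
  set β := bef' f₀ y S with hβ
  set γ := bef' f₀ y T with hγ
  have hγβ : γ ≤ β := bef'_mono f₀ y hST
  have hβα : β ≤ α := bef'_mono f₀ y hyS
  have hlhs : ∑ f ∈ K, (if ∃ s, S s ∧ f s < f y then (1 : ℝ) else 0) ≤ (α : ℝ) - β := by
    rw [Finset.sum_boole]
    have := card_event_le (r := r) (f₀ := f₀) S hyS' hryy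
    rw [← hK, ← hα, ← hβ] at this
    have h2 : (((K.filter (fun f => ∃ s, S s ∧ f s < f y)).card : ℕ) : ℝ) ≤ ((α - β : ℕ) : ℝ) := by
      exact_mod_cast this
    rw [Nat.cast_sub hβα] at h2
    exact h2
  refine hlhs.trans ?_
  have hval : ∀ f ∈ K, bef f (r y) = α + 1 ∧ β ≤ bef f S ∧ bef f S ≤ β + 1 ∧ γ ≤ bef f T ∧
      bef f T ≤ bef f S := by
    intro f hf
    rw [hK, mem_filter] at hf
    obtain ⟨hfr, hfs⟩ := hf
    refine ⟨?_, ?_, ?_, ?_, bef_mono f hST⟩
    · rw [bef_eq f y, bef'_same hfs (r y) hryy, if_pos (fun s hs => (mem_Lin.1 hfr) y s hs)]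
    · rw [bef_eq f y, bef'_same hfs S hyS']; omega
    · rw [bef_eq f y, bef'_same hfs S hyS']; split_ifs <;> omega
    · rw [bef_eq f y, bef'_same hfs T hyT]; omega
  rcases hβα.lt_or_eq with hlt | heq
  · have hterm : ∀ f ∈ K, ((α : ℝ) - β) / ((α : ℝ) + 1 - γ) ≤
        ((bef f (r y) : ℝ) - bef f S) / ((bef f (r y) : ℝ) - bef f T) := by
      intro f hf
      obtain ⟨h1, h2, h3, h4, h5⟩ := hval f hf
      rw [h1]
      push_cast
      have h3' : (bef f S : ℝ) ≤ β + 1 := by exact_mod_cast h3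
      have h4' : (γ : ℝ) ≤ bef f T := by exact_mod_cast h4
      have h5' : (bef f T : ℝ) ≤ bef f S := by exact_mod_cast h5
      have hlt' : (β : ℝ) + 1 ≤ α := by exact_mod_cast hlt
      apply div_le_div₀
      · linarith
      · linarith
      · linarith
      · linarith
    have hcard : (α : ℝ) + 1 - γ ≤ K.card := by
      have := card_class_ge hf₀ T hyT hDT
      rw [← hK, ← hα, ← hγ] at this
      have h2 : ((α + 1 - γ : ℕ) : ℝ) ≤ (K.card : ℝ) := by exact_mod_cast this
      rw [Nat.cast_sub (by omega)] at h2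
      push_cast at h2
      exact h2
    have hpos : (0 : ℝ) < (α : ℝ) + 1 - γ := by
      have : (γ : ℝ) ≤ α := by exact_mod_cast hγβ.trans hβα
      linarith
    have hnn : (0 : ℝ) ≤ ((α : ℝ) - β) / ((α : ℝ) + 1 - γ) := by
      apply div_nonneg _ hpos.le
      have : (β : ℝ) ≤ α := by exact_mod_cast hβα
      linarith
    calc (α : ℝ) - β = ((α : ℝ) + 1 - γ) * (((α : ℝ) - β) / ((α : ℝ) + 1 - γ)) := by
          field_simp
      _ ≤ K.card * (((α : ℝ) - β) / ((α : ℝ) + 1 - γ)) := mul_le_mul_of_nonneg_right hcard hnn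
      _ = ∑ f ∈ K, ((α : ℝ) - β) / ((α : ℝ) + 1 - γ) := by
          rw [sum_const, nsmul_eq_mul]
      _ ≤ _ := sum_le_sum hterm
  · rw [heq, sub_self]
    apply sum_nonneg
    intro f hf
    obtain ⟨h1, h2, h3, h4, h5⟩ := hval f hf
    rw [h1]
    push_cast
    have h3' : (bef f S : ℝ) ≤ β + 1 := by exact_mod_cast h3
    have h5' : (bef f T : ℝ) ≤ bef f S := by exact_mod_cast h5
    have heq' : (β : ℝ) = α := by exact_mod_cast heq
    apply div_nonneg <;> linarith

/-- telescoping with the harmonic numbers -/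
lemma harm_sum (S : ℕ → ℕ) (k : ℕ) (hS : ∀ i, i < k → S i ≤ S (i + 1)) (h0 : S 0 = 0) :
    ∑ i ∈ range k, ((S (i + 1) : ℝ) - S i) / (S (i + 1) : ℝ) ≤ (harmonic (S k) : ℝ) := by
  have hstep : ∀ a b : ℕ, a ≤ b → ((b : ℝ) - a) / (b : ℝ) ≤
      ((harmonic b : ℚ) : ℝ) - ((harmonic a : ℚ) : ℝ) := by
    intro a b hab
    obtain ⟨c, rfl⟩ := Nat.exists_eq_add_of_le hab
    clear hab
    rcases Nat.eq_zero_or_pos (a + c) with h | h
    · have ha : a = 0 := by omega
      have hc : c = 0 := by omega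
      subst ha; subst hc; simp
    · have h1 : ∀ d, d ≤ c → (d : ℝ) / ((a + c : ℕ) : ℝ) ≤
          ((harmonic (a + d) : ℚ) : ℝ) - ((harmonic a : ℚ) : ℝ) := by
        intro d
        induction d with
        | zero => intro _; simp
        | succ d ih =>
          intro hd
          have h2 := ih (by omega)
          rw [← add_assoc, harmonic_succ]
          push_cast
          have hpos : (0 : ℝ) < (a : ℝ) + d + 1 := by positivity
          have h3 : (1 : ℝ) / ((a : ℝ) + c) ≤ ((a : ℝ) + d + 1)⁻¹ := by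
            rw [one_div]
            apply inv_anti₀ hpos
            have : ((d + 1 : ℕ) : ℝ) ≤ c := by exact_mod_cast hd
            push_cast at this
            linarith
          push_cast at h2
          rw [add_div]
          linarith
      have h2 := h1 c le_rfl
      refine le_trans (le_of_eq ?_) h2
      push_cast
      congr 1
      ring
  induction k with
  | zero => simp [h0]
  | succ k ih =>
    rw [sum_range_succ]
    have h1 := ih (fun i hi => hS i (by omega))
    have h2 := hstep (S k) (S (k + 1)) (hS k (by omega))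
    linarith

lemma harm_mono {a b : ℕ} (h : a ≤ b) : ((harmonic a : ℚ) : ℝ) ≤ ((harmonic b : ℚ) : ℝ) := by
  obtain ⟨c, rfl⟩ := Nat.exists_eq_add_of_le h
  clear h
  induction c with
  | zero => simp
  | succ c ih =>
    rw [← add_assoc, harmonic_succ]
    push_cast
    have : (0 : ℝ) ≤ ((a : ℝ) + c + 1)⁻¹ := by positivity
    linarith

/-- `ups r x y`: number of linear extensions in which `y` comes after an element above `x` -/
noncomputable def ups (r : P → P → Prop) (x y : P) : ℝ :=
  ∑ f ∈ Lin r, (if ∃ s, r x s ∧ f s < f y then (1 : ℝ) else 0)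

/-- `dns r x y`: number of linear extensions in which `y` comes before an element below `x` -/
noncomputable def dns (r : P → P → Prop) (x y : P) : ℝ :=
  ∑ f ∈ Lin r, (if ∃ s, r s x ∧ f y < f s then (1 : ℝ) else 0)

/-- `cnt r x y`: number of linear extensions in which `x` comes before `y` -/
noncomputable def cnt (r : P → P → Prop) (x y : P) : ℝ :=
  ∑ f ∈ Lin r, (if f x < f y then (1 : ℝ) else 0)

/-- sum along a chain of decreasing up-sets -/
theorem sum_ups (r : P → P → Prop) (z : ℕ → P) (k : ℕ)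
    (hU : ∀ i, i < k → ∀ s, r (z (i + 1)) s → r (z i) s)
    (hz : ∀ i, i ≤ k → ¬ r (z 0) (z i))
    (hD : ∀ i, i ≤ k → ∀ w t, r w (z i) → r (z 0) t → r w t) (M : ℕ)
    (hM : ∀ f ∈ Lin r, bef f (r (z k)) ≤ bef f (r (z 0)) + M) :
    ∑ i ∈ range k, ups r (z i) (z (i + 1)) ≤ (Lin r).card * (harmonic M : ℝ) := by
  have hU' : ∀ i, i ≤ k → ∀ s, r (z i) s → r (z 0) s := by
    intro i
    induction i with
    | zero => intro _ s hs; exact hs
    | succ i ih => intro hi s hs; exact ih (by omega) s (hU i (by omega) s hs)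
  have h1 : ∀ i ∈ range k, ups r (z i) (z (i + 1)) ≤
      ∑ f ∈ Lin r, ((bef f (r (z (i + 1))) : ℝ) - bef f (r (z i))) /
        ((bef f (r (z (i + 1))) : ℝ) - bef f (r (z 0))) := by
    intro i hi
    rw [mem_range] at hi
    exact key r (z (i + 1)) (r (z i)) (r (z 0)) (hU i hi) (hU' i hi.le) (hz (i + 1) hi)
      (hD (i + 1) hi)
  refine (sum_le_sum h1).trans ?_
  rw [sum_comm]
  have h2 : ∀ f ∈ Lin r, ∑ i ∈ range k, ((bef f (r (z (i + 1))) : ℝ) - bef f (r (z i))) /
        ((bef f (r (z (i + 1))) : ℝ) - bef f (r (z 0))) ≤ (harmonic M : ℝ) := by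
    intro f hf
    set S : ℕ → ℕ := fun i => bef f (r (z i)) - bef f (r (z 0)) with hS
    have hle : ∀ i, i ≤ k → bef f (r (z 0)) ≤ bef f (r (z i)) := fun i hi =>
      bef_mono f (hU' i hi)
    have hcast : ∀ i, i ≤ k → (S i : ℝ) = (bef f (r (z i)) : ℝ) - bef f (r (z 0)) := by
      intro i hi
      rw [hS]
      simp only
      rw [Nat.cast_sub (hle i hi)]
    have h3 := harm_sum S k (by
      intro i hi
      have : bef f (r (z i)) ≤ bef f (r (z (i + 1))) := bef_mono f (hU i hi)
      simp only [hS]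
      omega) (by simp [hS])
    have h4 : S k ≤ M := by
      have := hM f hf
      simp only [hS]
      omega
    refine le_trans (le_of_eq ?_) (h3.trans (harm_mono h4))
    apply sum_congr rfl
    intro i hi
    rw [mem_range] at hi
    rw [hcast (i + 1) hi, hcast i hi.le]
    congr 1
    ring
  refine (sum_le_sum h2).trans ?_
  rw [sum_const, nsmul_eq_mul]

end Pool.Agent.TH447.KS
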