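import Mathlib
import Pool.Agent.TH447.KS.Key

set_option autoImplicit false

/-!
# Duality, swapping two elements, and sums along chains
-/

open Finset Classical

namespace Pool.Agent.TH447.KS

variable {P : Type} [Fintype P]

/-- reversed order -/
def rev (f : Ord P) : Ord P := f.trans Fin.revPerm

lemma rev_lt (f : Ord P) (a b : P) : rev f a < rev f b ↔ f b < f a := by
  simp [rev, Fin.rev_lt_rev]

lemma rev_rev (f : Ord P) : rev (rev f) = f := by
  ext a
  simp [rev]

lemma rev_mem {r : P → P → Prop} {f : Ord P} (hf : f ∈ Lin r) :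
    rev f ∈ Lin (fun a b => r b a) := by
  rw [mem_Lin] at hf ⊢
  intro a b hab
  rw [rev_lt]
  exact hf b a hab

lemma sum_rev (r : P → P → Prop) (F : Ord P → ℝ) :
    ∑ f ∈ Lin (fun a b => r b a), F f = ∑ f ∈ Lin r, F (rev f) := by
  refine Finset.sum_nbij' rev rev ?_ ?_ ?_ ?_ ?_
  · intro f hf; exact rev_mem hf
  · intro f hf; exact rev_mem hf
  · intro f _; exact rev_rev f
  · intro f _; exact rev_rev f
  · intro f _; rw [rev_rev]

lemma card_rev (r : P → P → Prop) : (Lin (fun a b => r b a)).card = (Lin r).card := by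
  have h := sum_rev r (fun _ => (1 : ℝ))
  simp only [sum_const, nsmul_eq_mul, mul_one] at h
  exact_mod_cast h

lemma ups_flip (r : P → P → Prop) (x y : P) : ups (fun a b => r b a) x y = dns r x y := by
  unfold ups dns
  rw [sum_rev]
  apply sum_congr rfl
  intro f _
  simp only [rev_lt]

lemma ups_nonneg (r : P → P → Prop) (x y : P) : 0 ≤ ups r x y :=
  sum_nonneg fun _ _ => by split_ifs <;> norm_num

lemma dns_nonneg (r : P → P → Prop) (x y : P) : 0 ≤ dns r x y :=
  sum_nonneg fun _ _ => by split_ifs <;> norm_num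

lemma cnt_nonneg (r : P → P → Prop) (x y : P) : 0 ≤ cnt r x y :=
  sum_nonneg fun _ _ => by split_ifs <;> norm_num

lemma ups_zero {r : P → P → Prop} {x y : P} (h : ∀ s, r x s → r y s) : ups r x y = 0 := by
  unfold ups
  apply sum_eq_zero
  intro f hf
  rw [if_neg]
  rintro ⟨s, hs, hlt⟩
  exact lt_asymm hlt ((mem_Lin.1 hf) y s (h s hs))

lemma dns_zero {r : P → P → Prop} {x y : P} (h : ∀ s, r s x → r s y) : dns r x y = 0 := by
  rw [← ups_flip]
  exact ups_zero (r := fun a b => r b a) h

lemma cnt_add {r : P → P → Prop} {x y : P} (hxy : x ≠ y) :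
    cnt r x y + cnt r y x = (Lin r).card := by
  unfold cnt
  rw [← sum_add_distrib]
  have : ∀ f ∈ Lin r, ((if f x < f y then (1 : ℝ) else 0) + if f y < f x then (1 : ℝ) else 0) = 1 := by
    intro f _
    rcases lt_trichotomy (f x) (f y) with h | h | h
    · rw [if_pos h, if_neg (not_lt.2 h.le)]; norm_num
    · exact absurd (f.injective h) hxy
    · rw [if_pos h, if_neg (not_lt.2 h.le)]; norm_num
  rw [sum_congr rfl this, sum_const, nsmul_eq_mul, mul_one]

/-- swapping two elements -/
lemma swap_mem {r : P → P → Prop} {x y : P} {f : Ord P} (hf : f ∈ Lin r) (hxy : ¬ r x y)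
    (hyx : ¬ r y x) (hlt : f x < f y) (h1 : ∀ s, r x s → f y ≤ f s) (h2 : ∀ s, r s y → f s ≤ f x) :
    (Equiv.swap x y).trans f ∈ Lin r := by
  have hf' := mem_Lin.1 hf
  rw [mem_Lin]
  have hne : x ≠ y := by rintro rfl; exact lt_irrefl _ hlt
  have hirr : ∀ a, ¬ r a a := fun a h => lt_irrefl _ (hf' a a h)
  intro a b hab
  simp only [Equiv.trans_apply]
  by_cases hax : a = x
  · subst hax
    rw [Equiv.swap_apply_left]
    by_cases hbx : b = a
    · subst hbx; exact absurd hab (hirr _)
    · by_cases hby : b = y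
      · subst hby; exact absurd hab hxy
      · rw [Equiv.swap_apply_of_ne_of_ne hbx hby]
        exact lt_of_le_of_ne (h1 b hab) (fun e => hby (f.injective e).symm)
  · by_cases hay : a = y
    · subst hay
      rw [Equiv.swap_apply_right]
      by_cases hbx : b = x
      · subst hbx; exact absurd hab hyx
      · by_cases hby : b = a
        · subst hby; exact absurd hab (hirr _)
        · rw [Equiv.swap_apply_of_ne_of_ne hbx hby]
          exact hlt.trans (hf' a b hab)
    · rw [Equiv.swap_apply_of_ne_of_ne hax hay]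
      by_cases hbx : b = x
      · subst hbx
        rw [Equiv.swap_apply_left]
        exact (hf' a b hab).trans hlt
      · by_cases hby : b = y
        · subst hby
          rw [Equiv.swap_apply_right]
          exact lt_of_le_of_ne (h2 a hab) (fun e => hax (f.injective e))
        · rw [Equiv.swap_apply_of_ne_of_ne hbx hby]
          exact hf' a b hab

lemma swap_inj (x y : P) : Function.Injective (fun f : Ord P => (Equiv.swap x y).trans f) := by
  intro f g h
  have h1 : (Equiv.swap x y).trans ((Equiv.swap x y).trans f) =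
      (Equiv.swap x y).trans ((Equiv.swap x y).trans g) := by
    simp only at h
    rw [h]
  ext a
  have := congrArg (fun e => ((e : P ≃ Fin (Fintype.card P)) a : ℕ)) h1
  simpa using this

/-- the basic inequality for a pair -/
theorem pair_le {r : P → P → Prop} {x y : P} (hxy : ¬ r x y) (hyx : ¬ r y x) :
    cnt r x y - cnt r y x ≤ ups r x y + dns r y x := by
  set X := (Lin r).filter (fun f => f x < f y ∧ (¬ ∃ s, r x s ∧ f s < f y) ∧
    (¬ ∃ s, r s y ∧ f x < f s)) with hX
  have h1 : (X.card : ℝ) ≤ cnt r y x := by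
    unfold cnt
    rw [Finset.sum_boole]
    have : X.card ≤ ((Lin r).filter (fun f => f y < f x)).card := by
      apply card_le_card_of_injOn (fun f => (Equiv.swap x y).trans f)
      · intro f hf
        rw [mem_coe, hX, mem_filter] at hf
        obtain ⟨hfr, hlt, h1, h2⟩ := hf
        push Not at h1 h2
        rw [mem_coe, mem_filter]
        refine ⟨swap_mem hfr hxy hyx hlt h1 h2, ?_⟩
        simp only [Equiv.trans_apply, Equiv.swap_apply_left, Equiv.swap_apply_right]
        exact hlt
      · intro f _ g _ h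
        exact swap_inj x y h
    exact_mod_cast this
  have h2 : cnt r x y ≤ X.card + ups r x y + dns r y x := by
    have h3 : (X.card : ℝ) = ∑ f ∈ Lin r, (if f x < f y ∧ (¬ ∃ s, r x s ∧ f s < f y) ∧
        (¬ ∃ s, r s y ∧ f x < f s) then (1 : ℝ) else 0) := by
      rw [Finset.sum_boole]
    rw [h3]
    unfold cnt ups dns
    rw [← sum_add_distrib, ← sum_add_distrib]
    apply sum_le_sum
    intro f _
    by_cases ha : f x < f y
    · by_cases hb : ∃ s, r x s ∧ f s < f y
      · rw [if_pos ha, if_pos hb]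
        have : (0 : ℝ) ≤ (if ∃ s, r s y ∧ f x < f s then (1 : ℝ) else 0) := by
          split_ifs <;> norm_num
        have h0 : (0 : ℝ) ≤ (if f x < f y ∧ (¬ ∃ s, r x s ∧ f s < f y) ∧
            (¬ ∃ s, r s y ∧ f x < f s) then (1 : ℝ) else 0) := by
          split_ifs <;> norm_num
        linarith
      · by_cases hc : ∃ s, r s y ∧ f x < f s
        · rw [if_pos ha, if_neg hb, if_pos hc]
          have h0 : (0 : ℝ) ≤ (if f x < f y ∧ (¬ ∃ s, r x s ∧ f s < f y) ∧
              (¬ ∃ s, r s y ∧ f x < f s) then (1 : ℝ) else 0) := by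
            split_ifs <;> norm_num
          linarith
        · rw [if_pos ha, if_pos ⟨ha, hb, hc⟩, if_neg hb, if_neg hc]
          norm_num
    · rw [if_neg ha]
      refine add_nonneg (add_nonneg ?_ ?_) ?_ <;> split_ifs <;> norm_num
  linarith

theorem pair_abs {r : P → P → Prop} {x y : P} (hxy : ¬ r x y) (hyx : ¬ r y x) :
    |cnt r x y - cnt r y x| ≤ (ups r x y + ups r y x) + (dns r x y + dns r y x) := by
  have h1 := pair_le hxy hyx
  have h2 := pair_le hyx hxy
  have h3 := ups_nonneg r x y
  have h4 := ups_nonneg r y x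
  have h5 := dns_nonneg r x y
  have h6 := dns_nonneg r y x
  rw [abs_le]
  constructor <;> linarith

/-- from a small difference to a balanced pair -/
lemma half_of_abs' {r : P → P → Prop} {x y : P} (hxy : x ≠ y) {c : ℝ}
    (h : |cnt r x y - cnt r y x| ≤ 2 * c * (Lin r).card) :
    (1 / 2 - c) * ((Lin r).card : ℝ) ≤ cnt r x y ∧
      (1 / 2 - c) * ((Lin r).card : ℝ) ≤ cnt r y x := by
  have h1 := cnt_add (r := r) hxy
  rw [abs_le] at h
  constructor <;> nlinarith [h.1, h.2]

/-- number of elements incomparable or equal to `x` -/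
noncomputable def inc (r : P → P → Prop) (x : P) : ℕ :=
  (univ.filter (fun z => ¬ r x z ∧ ¬ r z x)).card

lemma inc_flip (r : P → P → Prop) (x : P) : inc (fun a b => r b a) x = inc r x := by
  unfold inc
  congr 1
  ext z
  simp only [mem_filter, mem_univ, true_and]
  tauto

lemma bef_le_inc {r : P → P → Prop} {x z : P} (hcross : ∀ w t, r w x → r z t → r w t)
    {f : Ord P} (hf : f ∈ Lin r) : bef f (r x) ≤ bef f (r z) + inc r x := by
  unfold bef inc
  rw [← card_union_add_card_inter]
  refine le_trans (card_le_card ?_) (Nat.le_add_right _ _)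
  intro w hw
  simp only [mem_filter, mem_univ, true_and, mem_union] at hw ⊢
  by_cases h : ∀ s, r z s → f w < f s
  · exact Or.inl h
  · right
    push Not at h
    obtain ⟨t, ht, hlt⟩ := h
    refine ⟨fun hxw => lt_irrefl _ (hw w hxw), fun hwx => ?_⟩
    exact absurd ((mem_Lin.1 hf) w t (hcross w t hwx ht)) (not_lt.2 hlt)

/-- sum over a chain of nested up-sets, in both directions -/
theorem sum_ups_both (r : P → P → Prop) (z : ℕ → P) (k : ℕ)
    (hanti : ∀ i, i ≤ k → ∀ j, j ≤ k → ¬ r (z i) (z j))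
    (hcross : ∀ i, i ≤ k → ∀ j, j ≤ k → ∀ w t, r w (z i) → r (z j) t → r w t)
    (hU : (∀ i, i < k → ∀ s, r (z (i + 1)) s → r (z i) s) ∨
      (∀ i, i < k → ∀ s, r (z i) s → r (z (i + 1)) s)) (M : ℕ)
    (hM : ∀ i, i ≤ k → inc r (z i) ≤ M) :
    ∑ i ∈ range k, (ups r (z i) (z (i + 1)) + ups r (z (i + 1)) (z i)) ≤
      (Lin r).card * (harmonic M : ℝ) := by
  rcases hU with hU | hU
  · have h1 : ∀ i ∈ range k, ups r (z i) (z (i + 1)) + ups r (z (i + 1)) (z i) =
        ups r (z i) (z (i + 1)) := by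
      intro i hi
      rw [mem_range] at hi
      rw [ups_zero (hU i hi), add_zero]
    rw [sum_congr rfl h1]
    refine sum_ups r z k hU (fun i hi => hanti 0 (Nat.zero_le _) i hi)
      (fun i hi w t => hcross i hi 0 (Nat.zero_le _) w t) M ?_
    intro f hf
    refine (bef_le_inc (fun w t => hcross k le_rfl 0 (Nat.zero_le _) w t) hf).trans ?_
    have := hM k le_rfl
    omega
  · have h1 : ∀ i ∈ range k, ups r (z i) (z (i + 1)) + ups r (z (i + 1)) (z i) =
        ups r (z (i + 1)) (z i) := by
      intro i hi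
      rw [mem_range] at hi
      rw [ups_zero (hU i hi), zero_add]
    rw [sum_congr rfl h1, ← Finset.sum_range_reflect]
    have h2 : ∀ i ∈ range k, ups r (z (k - 1 - i + 1)) (z (k - 1 - i)) =
        ups r ((fun j => z (k - j)) i) ((fun j => z (k - j)) (i + 1)) := by
      intro i hi
      rw [mem_range] at hi
      simp only
      rw [show k - 1 - i + 1 = k - i by omega, show k - 1 - i = k - (i + 1) by omega]
    rw [sum_congr rfl h2]
    refine sum_ups r (fun j => z (k - j)) k ?_ ?_ ?_ M ?_
    · intro i hi s hs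
      have := hU (k - (i + 1)) (by omega) s hs
      rwa [show k - (i + 1) + 1 = k - i by omega] at this
    · intro i hi
      exact hanti _ (by omega) _ (by omega)
    · intro i hi w t
      exact hcross (k - i) (by omega) (k - 0) (by omega) w t
    · intro f hf
      refine (bef_le_inc (fun w t => hcross (k - k) (by omega) (k - 0) (by omega) w t) hf).trans ?_
      have := hM (k - k) (by omega)
      omega

/-- sum over a chain of nested down-sets, in both directions -/
theorem sum_dns_both (r : P → P → Prop) (z : ℕ → P) (k : ℕ)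
    (hanti : ∀ i, i ≤ k → ∀ j, j ≤ k → ¬ r (z i) (z j))
    (hcross : ∀ i, i ≤ k → ∀ j, j ≤ k → ∀ w t, r w (z i) → r (z j) t → r w t)
    (hD : (∀ i, i < k → ∀ s, r s (z (i + 1)) → r s (z i)) ∨
      (∀ i, i < k → ∀ s, r s (z i) → r s (z (i + 1)))) (M : ℕ)
    (hM : ∀ i, i ≤ k → inc r (z i) ≤ M) :
    ∑ i ∈ range k, (dns r (z i) (z (i + 1)) + dns r (z (i + 1)) (z i)) ≤
      (Lin r).card * (harmonic M : ℝ) := by
  have h := sum_ups_both (fun a b => r b a) z k (fun i hi j hj => hanti j hj i hi)
    (fun i hi j hj w t h1 h2 => hcross j hj i hi t w h2 h1) hD M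
    (fun i hi => by rw [inc_flip]; exact hM i hi)
  simp only [ups_flip, card_rev] at h
  exact h

/-- **Chains in antichains.** -/
theorem chain_sum (r : P → P → Prop) (z : ℕ → P) (k : ℕ)
    (hanti : ∀ i, i ≤ k → ∀ j, j ≤ k → ¬ r (z i) (z j))
    (hcross : ∀ i, i ≤ k → ∀ j, j ≤ k → ∀ w t, r w (z i) → r (z j) t → r w t)
    (hU : (∀ i, i < k → ∀ s, r (z (i + 1)) s → r (z i) s) ∨
      (∀ i, i < k → ∀ s, r (z i) s → r (z (i + 1)) s))
    (hD : (∀ i, i < k → ∀ s, r s (z (i + 1)) → r s (z i)) ∨
      (∀ i, i < k → ∀ s, r s (z i) → r s (z (i + 1)))) (M : ℕ)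
    (hM : ∀ i, i ≤ k → inc r (z i) ≤ M) :
    ∑ i ∈ range k, |cnt r (z i) (z (i + 1)) - cnt r (z (i + 1)) (z i)| ≤
      2 * (Lin r).card * (harmonic M : ℝ) := by
  have h1 : ∀ i ∈ range k, |cnt r (z i) (z (i + 1)) - cnt r (z (i + 1)) (z i)| ≤
      (ups r (z i) (z (i + 1)) + ups r (z (i + 1)) (z i)) +
      (dns r (z i) (z (i + 1)) + dns r (z (i + 1)) (z i)) := by
    intro i hi
    rw [mem_range] at hi
    exact pair_abs (hanti i hi.le (i + 1) hi) (hanti (i + 1) hi i hi.le)
  refine (sum_le_sum h1).trans ?_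
  rw [sum_add_distrib]
  have h2 := sum_ups_both r z k hanti hcross hU M hM
  have h3 := sum_dns_both r z k hanti hcross hD M hM
  linarith

/-- Some pair of consecutive elements of the chain is balanced. -/
theorem chain_pair (r : P → P → Prop) (z : ℕ → P) (k : ℕ) (hk : 1 ≤ k)
    (hanti : ∀ i, i ≤ k → ∀ j, j ≤ k → ¬ r (z i) (z j))
    (hcross : ∀ i, i ≤ k → ∀ j, j ≤ k → ∀ w t, r w (z i) → r (z j) t → r w t)
    (hU : (∀ i, i < k → ∀ s, r (z (i + 1)) s → r (z i) s) ∨
      (∀ i, i < k → ∀ s, r (z i) s → r (z (i + 1)) s))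
    (hD : (∀ i, i < k → ∀ s, r s (z (i + 1)) → r s (z i)) ∨
      (∀ i, i < k → ∀ s, r s (z i) → r s (z (i + 1)))) (M : ℕ)
    (hM : ∀ i, i ≤ k → inc r (z i) ≤ M) :
    ∃ i, i < k ∧ |cnt r (z i) (z (i + 1)) - cnt r (z (i + 1)) (z i)| ≤
      2 * (Lin r).card * (harmonic M : ℝ) / k := by
  have h := chain_sum r z k hanti hcross hU hD M hM
  have hkpos : (0 : ℝ) < k := by exact_mod_cast hk
  by_contra hcon
  push Not at hcon
  have h1 : ∑ i ∈ range k, 2 * (Lin r).card * (harmonic M : ℝ) / k <
      ∑ i ∈ range k, |cnt r (z i) (z (i + 1)) - cnt r (z (i + 1)) (z i)| := by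
    apply sum_lt_sum_of_nonempty
    · exact ⟨0, mem_range.2 hk⟩
    · intro i hi
      exact hcon i (mem_range.1 hi)
  rw [sum_const, card_range, nsmul_eq_mul] at h1
  have h2 : (k : ℝ) * (2 * (Lin r).card * (harmonic M : ℝ) / k) =
      2 * (Lin r).card * (harmonic M : ℝ) := by
    field_simp
  rw [h2] at h1
  linarith

end Pool.Agent.TH447.KS
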