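import Mathlib
import Pool.Agent.TH447.KS.Pair

set_option autoImplicit false

/-!
# An element incomparable to many others lies in a balanced pair
-/

open Finset Classical

namespace Pool.Agent.TH447.KS

variable {P : Type} [Fintype P]

/-- proper incomparability set -/
noncomputable def incS (r : P → P → Prop) (x : P) : Finset P :=
  univ.filter (fun z => z ≠ x ∧ ¬ r x z ∧ ¬ r z x)

lemma card_incS {r : P → P → Prop} {x : P} (hxx : ¬ r x x) : (incS r x).card + 1 = inc r x := by
  unfold incS inc
  have h1 : (univ.filter (fun z => z ≠ x ∧ ¬ r x z ∧ ¬ r z x)) =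
      (univ.filter (fun z => ¬ r x z ∧ ¬ r z x)).erase x := by
    ext z
    simp only [mem_filter, mem_univ, true_and, mem_erase]
  rw [h1, card_erase_of_mem (by simpa using hxx)]
  have : 0 < (univ.filter (fun z => ¬ r x z ∧ ¬ r z x)).card :=
    card_pos.2 ⟨x, by simpa using hxx⟩
  omega

lemma low_part {r : P → P → Prop} {w : ℕ}
    (htr : ∀ a b c, r a b → r b c → r a c)
    (h22 : ∀ a b c d, r a b → r c d → r a d ∨ r c b)
    (hw : ∀ A : Finset P, (∀ a ∈ A, ∀ b ∈ A, ¬ r a b) → A.card ≤ w)
    {f : Ord P} (hf : f ∈ Lin r) (x : P) :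
    ((incS r x).filter (fun z => ∃ s, r s x ∧ f z ≤ f s)).card ≤ w - 1 := by
  have hf' := mem_Lin.1 hf
  by_cases hne : ∃ s, r s x
  · obtain ⟨s₀, hs₀⟩ := hne
    obtain ⟨c, hc, hmax⟩ := exists_max_image (univ.filter (fun s => r s x)) (fun s => f s)
      ⟨s₀, by simpa using hs₀⟩
    have hcx : r c x := by simpa using hc
    have hmax' : ∀ s, r s x → f s ≤ f c := fun s hs => hmax s (by simpa using hs)
    set B := (incS r x).filter (fun z => ∃ s, r s x ∧ f z ≤ f s) with hB
    have hBz : ∀ z ∈ B, ¬ r x z ∧ ¬ r z x ∧ f z ≤ f c := by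
      intro z hz
      rw [hB, mem_filter, incS, mem_filter] at hz
      obtain ⟨⟨-, h1, h2, h3⟩, s, hs, hle⟩ := hz
      exact ⟨h2, h3, hle.trans (hmax' s hs)⟩
    have hcB : c ∉ B := fun h => (hBz c h).2.1 hcx
    have h1 : (insert c B).card ≤ w := by
      apply hw
      intro a ha b hb hab
      rcases mem_insert.1 ha with ha' | ha'
      · rw [ha'] at hab
        rcases mem_insert.1 hb with hb' | hb'
        · rw [hb'] at hab
          exact lt_irrefl _ (hf' _ _ hab)
        · exact absurd (hf' _ _ hab) (not_lt.2 (hBz b hb').2.2)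
      · rcases mem_insert.1 hb with hb' | hb'
        · rw [hb'] at hab
          exact (hBz a ha').2.1 (htr _ _ _ hab hcx)
        · rcases h22 a b c x hab hcx with h | h
          · exact (hBz a ha').2.1 h
          · exact absurd (hf' _ _ h) (not_lt.2 (hBz b hb').2.2)
    rw [card_insert_of_notMem hcB] at h1
    omega
  · have : (incS r x).filter (fun z => ∃ s, r s x ∧ f z ≤ f s) = ∅ := by
      rw [filter_eq_empty_iff]
      rintro z - ⟨s, hs, -⟩
      exact hne ⟨s, hs⟩
    rw [this]; simp

lemma incS_flip (r : P → P → Prop) (x : P) : incS (fun a b => r b a) x = incS r x := by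
  unfold incS
  ext z
  simp only [mem_filter, mem_univ, true_and]
  tauto

lemma up_part {r : P → P → Prop} {w : ℕ}
    (htr : ∀ a b c, r a b → r b c → r a c)
    (h22 : ∀ a b c d, r a b → r c d → r a d ∨ r c b)
    (hw : ∀ A : Finset P, (∀ a ∈ A, ∀ b ∈ A, ¬ r a b) → A.card ≤ w)
    {f : Ord P} (hf : f ∈ Lin r) (x : P) :
    ((incS r x).filter (fun z => ∃ s, r x s ∧ f s ≤ f z)).card ≤ w - 1 := by
  have h := low_part (r := fun a b => r b a) (w := w) (fun a b c h1 h2 => htr _ _ _ h2 h1)
    (fun a b c d h1 h2 => (h22 _ _ _ _ h2 h1)) (fun A hA => hw A (fun a ha b hb => hA b hb a ha))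
    (rev_mem hf) x
  rw [incS_flip] at h
  refine le_trans (le_of_eq ?_) h
  congr 1
  ext z
  simp only [mem_filter]
  have : ∀ s, (f s ≤ f z ↔ rev f z ≤ rev f s) := by
    intro s
    rw [← not_lt, ← not_lt, rev_lt]
  simp only [this]

/-- the class of `f₀` (forgetting `x`) has at most `inc r x` elements -/
lemma card_class_le {r : P → P → Prop} {x : P} {f₀ : Ord P} (hf₀ : f₀ ∈ Lin r) :
    ((Lin r).filter (fun f => Same x f f₀)).card ≤ inc r x := by
  have hxx : ¬ r x x := fun h => lt_irrefl _ ((mem_Lin.1 hf₀) x x h)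
  set κ := (univ.filter (fun z => z ≠ x ∧ ∃ s, r s x ∧ f₀ z ≤ f₀ s)).card with hκ
  have h1 : ((Lin r).filter (fun f => Same x f f₀)).image (fun f => (f x : ℕ)) ⊆
      Finset.Icc κ (bef' f₀ x (r x)) := by
    intro t ht
    obtain ⟨f, hf, rfl⟩ := mem_image.1 ht
    rw [mem_filter] at hf
    obtain ⟨hfr, hfs⟩ := hf
    rw [mem_Icc]
    constructor
    · rw [pos_eq, hκ]
      apply card_le_card
      intro z hz
      simp only [mem_filter, mem_univ, true_and] at hz ⊢
      obtain ⟨hzx, s, hs, hle⟩ := hz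
      have hsx : s ≠ x := by rintro rfl; exact hxx hs
      have h2 : f z ≤ f s := by
        rw [← not_lt, hfs s z hsx hzx, not_lt]; exact hle
      exact h2.trans_lt ((mem_Lin.1 hfr) s x hs)
    · rw [← bef'_same hfs (r x) hxx, pos_eq]
      unfold bef'
      apply card_le_card
      intro z hz
      simp only [mem_filter, mem_univ, true_and] at hz ⊢
      refine ⟨?_, fun u hu => hz.trans ((mem_Lin.1 hfr) x u hu)⟩
      rintro rfl; exact lt_irrefl _ hz
  have h2 : ((Lin r).filter (fun f => Same x f f₀)).card =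
      (((Lin r).filter (fun f => Same x f f₀)).image (fun f => (f x : ℕ))).card := by
    rw [card_image_of_injOn]
    intro f hf g hg hfg
    rw [mem_coe, mem_filter] at hf hg
    exact same_eq (hf.2.trans hg.2.symm) (Fin.ext hfg)
  rw [h2]
  refine (card_le_card h1).trans ?_
  rw [Nat.card_Icc, ← card_incS hxx]
  have h3 : bef' f₀ x (r x) ≤ κ + (incS r x).card := by
    unfold bef'
    rw [hκ, ← card_union_add_card_inter]
    refine le_trans (card_le_card ?_) (Nat.le_add_right _ _)
    intro z hz
    simp only [mem_filter, mem_univ, true_and, mem_union, incS] at hz ⊢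
    by_cases h : ∃ s, r s x ∧ f₀ z ≤ f₀ s
    · exact Or.inl ⟨hz.1, h⟩
    · right
      refine ⟨hz.1, fun h' => lt_irrefl _ (hz.2 z h'), fun h' => h ⟨z, h', le_rfl⟩⟩
  omega

/-- number of elements of the class that put `x` before `z` -/
lemma card_before_ge {r : P → P → Prop} {w : ℕ}
    (htr : ∀ a b c, r a b → r b c → r a c)
    (h22 : ∀ a b c d, r a b → r c d → r a d ∨ r c b)
    (hw : ∀ A : Finset P, (∀ a ∈ A, ∀ b ∈ A, ¬ r a b) → A.card ≤ w)
    {f₀ : Ord P} (hf₀ : f₀ ∈ Lin r) (x z : P) :
    ((incS r x).filter (fun z' => r z' z)).card ≤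
      (((Lin r).filter (fun f => Same x f f₀)).filter (fun f => f x < f z)).card
        + 2 * (w - 1) := by
  have hxx : ¬ r x x := fun h => lt_irrefl _ ((mem_Lin.1 hf₀) x x h)
  set A := (incS r x).filter (fun z' => r z' z) with hA
  set L := (incS r x).filter (fun z => ∃ s, r s x ∧ f₀ z ≤ f₀ s) with hL
  set U := (incS r x).filter (fun z => ∃ s, r x s ∧ f₀ s ≤ f₀ z) with hU
  set G := (A \ L) \ U with hG
  have hLc : L.card ≤ w - 1 := low_part htr h22 hw hf₀ x
  have hUc : U.card ≤ w - 1 := up_part htr h22 hw hf₀ x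
  have h1 : A.card ≤ G.card + L.card + U.card := by
    have h2 : A ⊆ G ∪ (L ∪ U) := by
      intro a ha
      by_cases h3 : a ∈ L
      · exact mem_union_right _ (mem_union_left _ h3)
      · by_cases h4 : a ∈ U
        · exact mem_union_right _ (mem_union_right _ h4)
        · exact mem_union_left _ (mem_sdiff.2 ⟨mem_sdiff.2 ⟨ha, h3⟩, h4⟩)
    have h3 := (card_le_card h2).trans (card_union_le _ _)
    have h4 := card_union_le L U
    omega
  have h2 : G.card ≤
      (((Lin r).filter (fun f => Same x f f₀)).filter (fun f => f x < f z)).card := by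
    have hpos : ∀ z', z' ≠ x → ∃ g : Ord P, Same x g f₀ ∧
        (g x : ℕ) = bef' f₀ x (fun u => u = z') := by
      intro z' _
      exact exists_insert f₀ x _ (bef'_lt _ _ _)
    have hch : ∀ z', ∃ g : Ord P, z' ≠ x → Same x g f₀ ∧
        (g x : ℕ) = bef' f₀ x (fun u => u = z') := by
      intro z'
      by_cases h : z' ≠ x
      · obtain ⟨g, hg⟩ := hpos z' h
        exact ⟨g, fun _ => hg⟩
      · exact ⟨f₀, fun h' => absurd h' h⟩
    choose g hg using hch
    apply card_le_card_of_injOn g
    · intro z' hz'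
      rw [mem_coe, hG, mem_sdiff, mem_sdiff, hA, mem_filter] at hz'
      obtain ⟨⟨⟨hz'I, hz'z⟩, hnL⟩, hnU⟩ := hz'
      have hz'x : z' ≠ x := by
        rw [incS, mem_filter] at hz'I; exact hz'I.2.1
      obtain ⟨hsame, hval⟩ := hg z' hz'x
      have hlow : ∀ s, r s x → f₀ s < f₀ z' := by
        intro s hs
        by_contra hcon
        exact hnL (mem_filter.2 ⟨hz'I, s, hs, not_lt.1 hcon⟩)
      have hup : ∀ s, r x s → f₀ z' < f₀ s := by
        intro s hs
        by_contra hcon
        exact hnU (mem_filter.2 ⟨hz'I, s, hs, not_lt.1 hcon⟩)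
      have e1 : bef' (g z') x (fun u => u = z') = bef' f₀ x (fun u => u = z') :=
        bef'_same hsame _ (fun h => hz'x h.symm)
      have hxz' : g z' x < g z' z' :=
        pos_gt (S := fun u => u = z') hz'x rfl (by rw [e1, hval])
      have hmem : g z' ∈ Lin r := by
        refine mem_class hf₀ hsame ?_ ?_
        · intro s hs
          have hsx : s ≠ x := by rintro rfl; exact hxx hs
          refine pos_lt (S := fun u => u = z') hsx ?_ (by rw [e1, hval])
          rintro _ rfl
          exact (hsame s _ hsx hz'x).2 (hlow s hs)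
        · intro s hs
          have hsx : s ≠ x := by rintro rfl; exact hxx hs
          exact hxz'.trans ((hsame z' s hz'x hsx).2 (hup s hs))
      rw [mem_coe, mem_filter, mem_filter]
      exact ⟨⟨hmem, hsame⟩, hxz'.trans ((mem_Lin.1 hmem) z' z hz'z)⟩
    · intro a ha b hb hab
      have hne : ∀ u ∈ (G : Set P), u ≠ x := by
        intro u hu
        rw [mem_coe, hG, mem_sdiff, mem_sdiff, hA, mem_filter, incS, mem_filter] at hu
        exact hu.1.1.1.2.1
      obtain ⟨hs1, hv1⟩ := hg a (hne a ha)
      obtain ⟨hs2, hv2⟩ := hg b (hne b hb)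
      have hv : bef' f₀ x (fun u => u = a) = bef' f₀ x (fun u => u = b) := by
        rw [← hv1, ← hv2, hab]
      by_contra hne'
      rcases lt_or_gt_of_ne (fun e => hne' (f₀.injective e) : f₀ a ≠ f₀ b) with h | h
      · have : bef' f₀ x (fun u => u = a) < bef' f₀ x (fun u => u = b) := by
          unfold bef'
          apply card_lt_card
          rw [ssubset_iff_of_subset]
          · refine ⟨a, ?_, ?_⟩
            · simp only [mem_filter, mem_univ, true_and, forall_eq]
              exact ⟨hne a ha, h⟩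
            · simp
          · intro u hu
            simp only [mem_filter, mem_univ, true_and, forall_eq] at hu ⊢
            exact ⟨hu.1, hu.2.trans h⟩
        omega
      · have : bef' f₀ x (fun u => u = b) < bef' f₀ x (fun u => u = a) := by
          unfold bef'
          apply card_lt_card
          rw [ssubset_iff_of_subset]
          · refine ⟨b, ?_, ?_⟩
            · simp only [mem_filter, mem_univ, true_and, forall_eq]
              exact ⟨hne b hb, h⟩
            · simp
          · intro u hu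
            simp only [mem_filter, mem_univ, true_and, forall_eq] at hu ⊢
            exact ⟨hu.1, hu.2.trans h⟩
        omega
  omega

/-- probability that `x` comes before `z` -/
lemma cnt_ge {r : P → P → Prop} {w : ℕ}
    (htr : ∀ a b c, r a b → r b c → r a c)
    (h22 : ∀ a b c d, r a b → r c d → r a d ∨ r c b)
    (hw : ∀ A : Finset P, (∀ a ∈ A, ∀ b ∈ A, ¬ r a b) → A.card ≤ w)
    (x z : P) (a : ℕ) (ha : a + 2 * (w - 1) ≤ ((incS r x).filter (fun z' => r z' z)).card) :
    (a : ℝ) * (Lin r).card ≤ inc r x * cnt r x z := by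
  have h1 : ∑ f ∈ Lin r, (a : ℝ) ≤
      ∑ f ∈ Lin r, (inc r x : ℝ) * (if f x < f z then (1 : ℝ) else 0) := by
    apply sum_le_sum_classes r x
    intro f₀ hf₀
    rw [sum_const, nsmul_eq_mul, ← mul_sum, Finset.sum_boole]
    have h2 : ((((Lin r).filter (fun f => Same x f f₀)).card : ℕ) : ℝ) ≤ inc r x := by
      exact_mod_cast card_class_le hf₀
    have h3 := card_before_ge htr h22 hw hf₀ x z
    have h4 : (a : ℝ) ≤ ((((Lin r).filter (fun f => Same x f f₀)).filter
        (fun f => f x < f z)).card : ℝ) := by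
      have : a ≤ (((Lin r).filter (fun f => Same x f f₀)).filter (fun f => f x < f z)).card := by
        omega
      exact_mod_cast this
    exact mul_le_mul h2 h4 (Nat.cast_nonneg _) (Nat.cast_nonneg _)
  rw [sum_const, nsmul_eq_mul, ← mul_sum] at h1
  unfold cnt
  linarith

/-- nested down-sets -/
lemma nested {r : P → P → Prop} (h22 : ∀ a b c d, r a b → r c d → r a d ∨ r c b)
    (u v : P) : (∀ z, r z u → r z v) ∨ (∀ z, r z v → r z u) := by
  by_contra hcon
  push Not at hcon
  obtain ⟨⟨z, h1, h2⟩, z', h3, h4⟩ := hcon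
  rcases h22 z u z' v h1 h3 with h | h
  · exact h2 h
  · exact h4 h

lemma nested_filter {r : P → P → Prop} (h22 : ∀ a b c d, r a b → r c d → r a d ∨ r c b)
    (I : Finset P) (u v : P)
    (hle : (I.filter (fun z => r z u)).card ≤ (I.filter (fun z => r z v)).card) :
    ∀ z ∈ I, r z u → r z v := by
  rcases nested h22 u v with h | h
  · exact fun z _ => h z
  · have h1 : I.filter (fun z => r z v) ⊆ I.filter (fun z => r z u) := by
      intro z hz
      rw [mem_filter] at hz ⊢
      exact ⟨hz.1, h z hz.2⟩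
    have h2 := eq_of_subset_of_card_le h1 hle
    intro z hz hzu
    have : z ∈ I.filter (fun z => r z v) := by rw [h2, mem_filter]; exact ⟨hz, hzu⟩
    exact (mem_filter.1 this).2

/-- a central element of a set -/
lemma exists_central {r : P → P → Prop} {w : ℕ}
    (h22 : ∀ a b c d, r a b → r c d → r a d ∨ r c b)
    (hw : ∀ A : Finset P, (∀ a ∈ A, ∀ b ∈ A, ¬ r a b) → A.card ≤ w)
    (I : Finset P) (s : ℕ) (hs : s + w < I.card + 1) (hs1 : 1 ≤ s) :
    ∃ z ∈ I, s ≤ (I.filter (fun z' => r z' z)).card ∧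
      I.card + 1 ≤ (I.filter (fun z' => r z z')).card + s + 2 * w := by
  set a : P → ℕ := fun z => (I.filter (fun z' => r z' z)).card with ha
  set b : P → ℕ := fun z => (I.filter (fun z' => r z z')).card with hb
  set B := I.filter (fun z => s ≤ a z) with hB
  set C := I.filter (fun z => ¬ s ≤ a z) with hC
  have hBC : B.card + C.card = I.card := by
    rw [hB, hC]; exact card_filter_add_card_filter_not _
  have hCc : C.card + 1 ≤ s + w := by
    by_cases hne : C.Nonempty
    · obtain ⟨z'', hz'', hmax⟩ := exists_max_image C a hne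
      have h1 : (C.filter (fun z => ¬ r z z'')).card ≤ w := by
        apply hw
        intro u hu v hv huv
        rw [mem_filter] at hu hv
        have huI : u ∈ I := (mem_filter.1 hu.1).1
        exact hu.2 (nested_filter h22 I v z'' (hmax v hv.1) u huI huv)
      have h2 : (C.filter (fun z => r z z'')).card ≤ a z'' := by
        apply card_le_card
        intro z hz
        rw [mem_filter] at hz ⊢
        exact ⟨(mem_filter.1 hz.1).1, hz.2⟩
      have h3 : ¬ s ≤ a z'' := (mem_filter.1 hz'').2
      have h4 := card_filter_add_card_filter_not (s := C) (fun z => r z z'')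
      omega
    · rw [not_nonempty_iff_eq_empty] at hne
      rw [hne, card_empty]
      omega
  have hBne : B.Nonempty := by
    rw [← card_pos]; omega
  obtain ⟨z, hz, hmax⟩ := exists_max_image B b hBne
  have hzI : z ∈ I := (mem_filter.1 hz).1
  refine ⟨z, hzI, (mem_filter.1 hz).2, ?_⟩
  have h1 : (B.filter (fun u => ¬ r z u)).card ≤ w := by
    apply hw
    intro u hu v hv huv
    rw [mem_filter] at hu hv
    have hvI : v ∈ I := (mem_filter.1 hv.1).1
    have := nested_filter (r := fun a b => r b a) (fun a b c d h1 h2 => (h22 _ _ _ _ h2 h1))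
      I u z (hmax u hu.1) v hvI huv
    exact hv.2 this
  have h2 : (B.filter (fun u => r z u)).card ≤ b z := by
    apply card_le_card
    intro u hu
    rw [mem_filter] at hu ⊢
    exact ⟨(mem_filter.1 hu.1).1, hu.2⟩
  have h4 := card_filter_add_card_filter_not (s := B) (fun u => r z u)
  have e : b z = (I.filter (fun z' => r z z')).card := rfl
  omega

/-- **Ladder lemma.** -/
theorem ladder {r : P → P → Prop} {w : ℕ}
    (htr : ∀ a b c, r a b → r b c → r a c) (hirr : ∀ a, ¬ r a a)
    (h22 : ∀ a b c d, r a b → r c d → r a d ∨ r c b)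
    (hw : ∀ A : Finset P, (∀ a ∈ A, ∀ b ∈ A, ¬ r a b) → A.card ≤ w) (x : P)
    (hm : 6 * w < inc r x) :
    ∃ z, x ≠ z ∧ (1 / 2 - 3 * w / inc r x) * ((Lin r).card : ℝ) ≤ cnt r x z ∧
      (1 / 2 - 3 * w / inc r x) * ((Lin r).card : ℝ) ≤ cnt r z x := by
  have hw1 : 1 ≤ w := by
    have := hw {x} (by
      intro a ha b hb
      rw [mem_singleton] at ha hb
      subst ha; subst hb; exact hirr _)
    simpa using this
  have hI : (incS r x).card + 1 = inc r x := card_incS (hirr x)
  set m := inc r x with hmdef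
  set s := ((incS r x).card + 1 - 2 * w) / 2 with hs
  obtain ⟨z, hz, h1, h2⟩ := exists_central h22 hw (incS r x) s (by omega) (by omega)
  have hzx : x ≠ z := by
    rw [incS, mem_filter] at hz
    exact hz.2.1.symm
  refine ⟨z, hzx, ?_, ?_⟩
  · have h3 := cnt_ge htr h22 hw x z (s - 2 * (w - 1)) (by omega)
    rw [← hmdef] at h3
    have hmpos : (0 : ℝ) < m := by
      have : 0 < m := by omega
      exact_mod_cast this
    have h4 : (1 / 2 - 3 * (w : ℝ) / m) * m ≤ ((s - 2 * (w - 1) : ℕ) : ℝ) := by
      have h5 : m ≤ 2 * (s - 2 * (w - 1)) + 6 * w := by omega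
      have h6 : (m : ℝ) ≤ 2 * ((s - 2 * (w - 1) : ℕ) : ℝ) + 6 * w := by exact_mod_cast h5
      have e : (1 / 2 - 3 * (w : ℝ) / m) * m = m / 2 - 3 * w := by field_simp
      rw [e]
      linarith
    have h7 : (1 / 2 - 3 * (w : ℝ) / m) * m * (Lin r).card ≤ m * cnt r x z :=
      (mul_le_mul_of_nonneg_right h4 (Nat.cast_nonneg _)).trans h3
    have h8 : (m : ℝ) * ((1 / 2 - 3 * (w : ℝ) / m) * (Lin r).card) ≤ m * cnt r x z := by
      calc (m : ℝ) * ((1 / 2 - 3 * (w : ℝ) / m) * (Lin r).card) =
          (1 / 2 - 3 * (w : ℝ) / m) * m * (Lin r).card := by ring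
        _ ≤ _ := h7
    exact le_of_mul_le_mul_left h8 hmpos
  · have h3 := cnt_ge (r := fun a b => r b a) (w := w) (fun a b c h1 h2 => htr _ _ _ h2 h1)
      (fun a b c d h1 h2 => (h22 _ _ _ _ h2 h1))
      (fun A hA => hw A (fun a ha b hb => hA b hb a ha)) x z (s - 2 * (w - 1)) (by
        rw [incS_flip]; omega)
    rw [inc_flip, card_rev, ← hmdef] at h3
    have hcnt : cnt (fun a b => r b a) x z = cnt r z x := by
      unfold cnt
      rw [sum_rev]
      apply sum_congr rfl
      intro f _
      simp only [rev_lt]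
    rw [hcnt] at h3
    have hmpos : (0 : ℝ) < m := by
      have : 0 < m := by omega
      exact_mod_cast this
    have h4 : (1 / 2 - 3 * (w : ℝ) / m) * m ≤ ((s - 2 * (w - 1) : ℕ) : ℝ) := by
      have h5 : m ≤ 2 * (s - 2 * (w - 1)) + 6 * w := by omega
      have h6 : (m : ℝ) ≤ 2 * ((s - 2 * (w - 1) : ℕ) : ℝ) + 6 * w := by exact_mod_cast h5
      have e : (1 / 2 - 3 * (w : ℝ) / m) * m = m / 2 - 3 * w := by field_simp
      rw [e]
      linarith
    have h7 : (1 / 2 - 3 * (w : ℝ) / m) * m * (Lin r).card ≤ m * cnt r z x :=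
      (mul_le_mul_of_nonneg_right h4 (Nat.cast_nonneg _)).trans h3
    have h8 : (m : ℝ) * ((1 / 2 - 3 * (w : ℝ) / m) * (Lin r).card) ≤ m * cnt r z x := by
      calc (m : ℝ) * ((1 / 2 - 3 * (w : ℝ) / m) * (Lin r).card) =
          (1 / 2 - 3 * (w : ℝ) / m) * m * (Lin r).card := by ring
        _ ≤ _ := h7
    exact le_of_mul_le_mul_left h8 hmpos

end Pool.Agent.TH447.KS
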