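import Mathlib
import Pool.Agent.TH447.KS.Ladder
import Pool.Agent.H184R3.ES

set_option autoImplicit false

/-!
# Interval orders have balanced pairs
-/

open Finset Classical

namespace Pool.Agent.TH447.KS

variable {P : Type} [Fintype P]

/-- Erdős–Szekeres for two functions on a finite set -/
lemma exists_chain (A : Finset P) (p q : P → ℕ) (s : ℕ) (hs : s * s < A.card) :
    ∃ z : ℕ → P, (∀ i, z i ∈ A) ∧ (∀ i, i < s → z i ≠ z (i + 1)) ∧
      (∀ i, i < s → p (z i) ≤ p (z (i + 1))) ∧
      ((∀ i, i < s → q (z i) ≤ q (z (i + 1))) ∨ (∀ i, i < s → q (z (i + 1)) ≤ q (z i))) := by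
  obtain ⟨e0⟩ : Nonempty (Fin A.card ≃ A) := ⟨(A.equivFin).symm⟩
  set σ := Tuple.sort (fun i => p (e0 i : P)) with hσ
  have hmono : Monotone ((fun i => p (e0 i : P)) ∘ σ) := Tuple.monotone_sort _
  set a : Fin A.card → P := fun i => (e0 (σ i) : P) with ha
  have hainj : Function.Injective a := by
    intro i j hij
    exact σ.injective (e0.injective (Subtype.ext hij))
  have haA : ∀ i, a i ∈ A := fun i => (e0 (σ i)).2
  have hap : ∀ i j, i ≤ j → p (a i) ≤ p (a j) := fun i j hij => hmono hij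
  let f : Fin A.card → ℕ ×ₗ ℕ := fun i => toLex (q (a i), (i : ℕ))
  have hf : Function.Injective f := by
    intro i j hij
    have : (q (a i), (i : ℕ)) = (q (a j), (j : ℕ)) := toLex.injective hij
    exact Fin.ext (Prod.mk.inj this).2
  have build : ∀ t : Finset (Fin A.card), s < #t → ∃ z : ℕ → Fin A.card,
      (∀ i, z i ∈ t) ∧ (∀ i, i < s → z i < z (i + 1)) := by
    intro t ht
    refine ⟨fun n => t.orderEmbOfFin rfl ⟨min n s, by omega⟩, fun i => ?_, fun i hi => ?_⟩
    · exact Finset.orderEmbOfFin_mem _ _ _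
    · apply (t.orderEmbOfFin rfl).strictMono
      rw [Fin.lt_def]
      simp only
      omega
  rcases Pool.Agent.H184R3.ES.erdos_szekeres (r := s) (s := s) (f := f)
    (by rw [Fintype.card_fin]; exact hs) hf with ⟨t, ht, hmon⟩ | ⟨t, ht, hmon⟩
  · obtain ⟨z, hz1, hz2⟩ := build t ht
    refine ⟨fun i => a (z i), fun i => haA _, fun i hi h => ?_, fun i hi => hap _ _ (hz2 i hi).le,
      Or.inl fun i hi => ?_⟩
    · exact (hz2 i hi).ne (hainj h)
    · have h1 := hmon (hz1 i) (hz1 (i + 1)) (hz2 i hi)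
      rcases (Prod.Lex.lt_iff).1 h1 with h | h
      · exact h.le
      · exact h.1.le
  · obtain ⟨z, hz1, hz2⟩ := build t ht
    refine ⟨fun i => a (z i), fun i => haA _, fun i hi h => ?_, fun i hi => hap _ _ (hz2 i hi).le,
      Or.inr fun i hi => ?_⟩
    · exact (hz2 i hi).ne (hainj h)
    · have h1 := hmon (hz1 i) (hz1 (i + 1)) (hz2 i hi)
      rcases (Prod.Lex.lt_iff).1 h1 with h | h
      · exact h.le
      · exact h.1.le

lemma nested_univ {r : P → P → Prop} (h22 : ∀ a b c d, r a b → r c d → r a d ∨ r c b)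
    (u v : P) (hle : (univ.filter (fun z => r z u)).card ≤ (univ.filter (fun z => r z v)).card) :
    ∀ z, r z u → r z v :=
  fun z => nested_filter h22 univ u v hle z (mem_univ z)

/-- antichains of interval orders contain balanced pairs -/
theorem anti_pair {r : P → P → Prop} (h22 : ∀ a b c d, r a b → r c d → r a d ∨ r c b)
    (A : Finset P) (hA : ∀ a ∈ A, ∀ b ∈ A, ¬ r a b) (s : ℕ) (hs1 : 1 ≤ s) (hs : s * s < A.card)
    (M : ℕ) (hM : ∀ x ∈ A, inc r x ≤ M) :
    ∃ x y, x ≠ y ∧ |cnt r x y - cnt r y x| ≤ 2 * (Lin r).card * (harmonic M : ℝ) / s := by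
  obtain ⟨z, hz1, hz2, hz3, hz4⟩ := exists_chain A (fun x => (univ.filter (fun z => r z x)).card)
    (fun x => (univ.filter (fun z => r x z)).card) s hs
  have h22' : ∀ a b c d, r b a → r d c → r d a ∨ r b c := fun a b c d h1 h2 => h22 _ _ _ _ h2 h1
  obtain ⟨i, hi, h⟩ := chain_pair r z s hs1 (fun i _ j _ => hA _ (hz1 i) _ (hz1 j))
    (fun i _ j _ w t h1 h2 => by
      rcases h22 w (z i) (z j) t h1 h2 with h | h
      · exact h
      · exact absurd h (hA _ (hz1 j) _ (hz1 i)))
    (by
      rcases hz4 with h | h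
      · right
        intro i hi t ht
        exact nested_univ (r := fun a b => r b a) h22' _ _ (h i hi) t ht
      · left
        intro i hi t ht
        exact nested_univ (r := fun a b => r b a) h22' _ _ (h i hi) t ht)
    (Or.inr fun i hi t ht => nested_univ h22 _ _ (hz3 i hi) t ht) M
    (fun i _ => hM _ (hz1 i))
  exact ⟨z i, z (i + 1), hz2 i hi, h⟩

/-- from a small difference to a balanced pair -/
lemma half_of_abs {r : P → P → Prop} {x y : P} (hxy : x ≠ y) {c : ℝ}
    (h : |cnt r x y - cnt r y x| ≤ 2 * c * (Lin r).card) :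
    (1 / 2 - c) * ((Lin r).card : ℝ) ≤ cnt r x y ∧
      (1 / 2 - c) * ((Lin r).card : ℝ) ≤ cnt r y x := by
  have h1 := cnt_add (r := r) hxy
  rw [abs_le] at h
  constructor <;> nlinarith [h.1, h.2]

/-- **Interval orders.** -/
theorem interval_main {r : P → P → Prop} {w : ℕ}
    (htr : ∀ a b c, r a b → r b c → r a c) (hirr : ∀ a, ¬ r a a)
    (h22 : ∀ a b c d, r a b → r c d → r a d ∨ r c b)
    (hw : ∀ A : Finset P, (∀ a ∈ A, ∀ b ∈ A, ¬ r a b) → A.card ≤ w)
    (A : Finset P) (hA : ∀ a ∈ A, ∀ b ∈ A, ¬ r a b) (hAw : A.card = w) (hwpos : 1 ≤ w)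
    (hpos : 0 < 1 / 2 - 3 * (1 + Real.log w) / Real.sqrt w) :
    ∃ x y, x ≠ y ∧ (1 / 2 - 3 * (1 + Real.log w) / Real.sqrt w) * ((Lin r).card : ℝ) ≤ cnt r x y ∧
      (1 / 2 - 3 * (1 + Real.log w) / Real.sqrt w) * ((Lin r).card : ℝ) ≤ cnt r y x := by
  have hw1 : (1 : ℝ) ≤ w := by exact_mod_cast hwpos
  have hlog : 0 ≤ Real.log w := Real.log_nonneg hw1
  have hsq : 0 < Real.sqrt w := Real.sqrt_pos.2 (by linarith)
  have h6 : 6 * (1 + Real.log w) < Real.sqrt w := by
    have : 3 * (1 + Real.log w) / Real.sqrt w < 1 / 2 := by linarith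
    rw [div_lt_iff₀ hsq] at this
    linarith
  have hss : Real.sqrt w * Real.sqrt w = w := Real.mul_self_sqrt (by linarith)
  by_cases hbig : ∃ x, (w : ℝ) * Real.sqrt w ≤ inc r x
  · obtain ⟨x, hx⟩ := hbig
    have hm : 6 * w < inc r x := by
      have : (6 : ℝ) * w < inc r x := by nlinarith
      exact_mod_cast this
    obtain ⟨z, hxz, h1, h2⟩ := ladder htr hirr h22 hw x hm
    have hmpos : (0 : ℝ) < inc r x := by
      have : 0 < inc r x := by omega
      exact_mod_cast this
    have h3 : 3 * (w : ℝ) / inc r x ≤ 3 * (1 + Real.log w) / Real.sqrt w := by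
      rw [div_le_div_iff₀ hmpos hsq]
      nlinarith [mul_nonneg hlog hmpos.le]
    have h4 : (1 / 2 - 3 * (1 + Real.log w) / Real.sqrt w) * ((Lin r).card : ℝ) ≤
        (1 / 2 - 3 * w / inc r x) * ((Lin r).card : ℝ) :=
      mul_le_mul_of_nonneg_right (by linarith) (Nat.cast_nonneg _)
    exact ⟨x, z, hxz, h4.trans h1, h4.trans h2⟩
  · push Not at hbig
    set s := Nat.sqrt (w - 1) with hs
    have hs1 : s * s < w := by
      have : s * s ≤ w - 1 := Nat.sqrt_le (w - 1)
      omega
    have hs2 : w ≤ (s + 1) * (s + 1) := by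
      have h : w - 1 < (s + 1) * (s + 1) := Nat.lt_succ_sqrt (w - 1)
      omega
    have hs3 : Real.sqrt w ≤ s + 1 := by
      rw [Real.sqrt_le_left (by positivity)]
      have : ((w : ℕ) : ℝ) ≤ (((s + 1) * (s + 1) : ℕ) : ℝ) := by exact_mod_cast hs2
      push_cast at this
      nlinarith
    have hs4 : (5 / 6 : ℝ) * Real.sqrt w ≤ s := by linarith
    have hs5 : 1 ≤ s := by
      by_contra hcon
      have : s = 0 := by omega
      rw [this] at hs4
      push_cast at hs4
      linarith
    obtain ⟨x₀, hx₀⟩ : A.Nonempty := by rw [← card_pos]; omega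
    obtain ⟨xm, hxm, hmax⟩ := exists_max_image (univ : Finset P) (fun x => inc r x)
      ⟨x₀, mem_univ _⟩
    set M := inc r xm with hM
    obtain ⟨x, y, hxy, h⟩ := anti_pair h22 A hA s hs5 (by rw [hAw]; exact hs1) M
      (fun x _ => hmax x (mem_univ x))
    have hM1 : 1 ≤ M := by
      rw [hM, ← card_incS (hirr xm)]; omega
    have hMlog : (harmonic M : ℝ) ≤ 1 + 3 / 2 * Real.log w := by
      refine (harmonic_le_one_add_log M).trans ?_
      have h1 : Real.log M ≤ Real.log (w * Real.sqrt w) := by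
        apply Real.log_le_log (by exact_mod_cast hM1)
        exact (hbig xm).le
      rw [Real.log_mul (by linarith) hsq.ne', Real.log_sqrt (by linarith)] at h1
      linarith
    have hspos : (0 : ℝ) < s := by exact_mod_cast hs5
    have h1 : 2 * (Lin r).card * (harmonic M : ℝ) / s ≤
        2 * (3 * (1 + Real.log w) / Real.sqrt w) * (Lin r).card := by
      have h2 : (harmonic M : ℝ) / s ≤ 3 * (1 + Real.log w) / Real.sqrt w := by
        rw [div_le_div_iff₀ hspos hsq]
        calc (harmonic M : ℝ) * Real.sqrt w ≤ (1 + 3 / 2 * Real.log w) * Real.sqrt w :=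
              mul_le_mul_of_nonneg_right hMlog hsq.le
          _ ≤ (1 + 3 / 2 * Real.log w) * (6 / 5 * s) := by
              apply mul_le_mul_of_nonneg_left _ (by linarith)
              linarith
          _ ≤ 3 * (1 + Real.log w) * s := by nlinarith
      calc 2 * (Lin r).card * (harmonic M : ℝ) / s =
          2 * ((harmonic M : ℝ) / s) * (Lin r).card := by ring
        _ ≤ _ := by
          apply mul_le_mul_of_nonneg_right _ (Nat.cast_nonneg _)
          linarith
    obtain ⟨h2, h3⟩ := half_of_abs hxy (h.trans h1)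
    exact ⟨x, y, hxy, h2, h3⟩

end Pool.Agent.TH447.KS
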