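import Mathlib
import Pool.Agent.TH447.KS.Interval
import Pool.Agent.TH447.KS.Upper

set_option autoImplicit false

/-!
# Interval orders: the minimal balance constants by width
-/

open Finset Classical

namespace Pool.Agent.TH447.KS

open Pool.Agent.H13R3.WB Pool.Agent.H931R3.Bal

section

variable {P : Type} [Fintype P] [PartialOrder P]

/-- the strict order as a relation -/
abbrev lt' (P : Type) [PartialOrder P] : P → P → Prop := fun a b => a < b

lemma mono_iff_lin (f : Ord P) : Monotone f ↔ f ∈ Lin (lt' P) := by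
  rw [mem_Lin]
  constructor
  · intro h a b hab
    exact lt_of_mono h hab
  · intro h
    exact mono_of_lt h

lemma prob_eq_cnt (x y : P) : prob P x y = cnt (lt' P) x y / (Lin (lt' P)).card := by
  unfold prob cnt
  rw [Finset.sum_boole]
  congr 1
  · congr 1
    rw [Nat.card_eq_fintype_card, Fintype.card_subtype]
    congr 1
    ext f
    simp only [mem_filter, mem_univ, true_and, mono_iff_lin]
  · congr 1
    rw [Nat.card_eq_fintype_card, Fintype.card_subtype]
    congr 1
    ext f
    simp only [mem_filter, mem_univ, true_and, mono_iff_lin]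

lemma lin_pos : 0 < (Lin (lt' P)).card := by
  obtain ⟨f⟩ := LEn_nonempty (P := P) rfl
  exact card_pos.2 ⟨f.1, (mono_iff_lin f.1).1 f.2⟩

lemma le_balance_of_cnt {x y : P} {c : ℝ} (h1 : c * ((Lin (lt' P)).card : ℝ) ≤ cnt (lt' P) x y)
    (h2 : c * ((Lin (lt' P)).card : ℝ) ≤ cnt (lt' P) y x) : c ≤ balance P := by
  refine le_trans ?_ (le_balance x y)
  have hpos : (0 : ℝ) < (Lin (lt' P)).card := by exact_mod_cast lin_pos
  rw [prob_eq_cnt, prob_eq_cnt]
  exact le_min ((le_div_iff₀ hpos).2 h1) ((le_div_iff₀ hpos).2 h2)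

lemma anti_iff {A : Finset P} : IsAntichain (· ≤ ·) (A : Set P) ↔
    ∀ a ∈ A, ∀ b ∈ A, ¬ lt' P a b := by
  constructor
  · intro h a ha b hb hab
    exact h ha hb hab.ne hab.le
  · intro h a ha b hb hab hle
    exact h a ha b hb (lt_of_le_of_ne hle hab)

lemma interval_22 (h : IsIntervalOrder P) : ∀ a b c d : P, lt' P a b → lt' P c d →
    lt' P a d ∨ lt' P c b := by
  obtain ⟨l, u, h1, h2⟩ := h
  intro a b c d hab hcd
  simp only [lt', h2] at hab hcd ⊢
  rcases lt_or_ge (u a) (l d) with h | h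
  · exact Or.inl h
  · right; linarith

end

theorem interval_balance (P : Type) [Fintype P] [PartialOrder P] (hP : IsIntervalOrder P) (w : ℕ)
    (hw1 : 1 ≤ w) (hw : HasWidth P w) :
    1 / 2 - 3 * (1 + Real.log w) / Real.sqrt w ≤ balance P := by
  obtain ⟨⟨A, hA, hAc⟩, hwid⟩ := hw
  have hne : Nonempty P := by
    obtain ⟨x, _⟩ := Finset.card_pos.1 (show 0 < A.card by omega)
    exact ⟨x⟩
  by_cases hpos : 0 < 1 / 2 - 3 * (1 + Real.log w) / Real.sqrt w
  · obtain ⟨x, y, -, h1, h2⟩ := interval_main (r := lt' P) (w := w) (fun a b c => lt_trans)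
      (fun a => lt_irrefl a) (interval_22 hP) (fun B hB => hwid B (anti_iff.2 hB)) A
      (anti_iff.1 hA) hAc hw1 hpos
    exact le_balance_of_cnt h1 h2
  · exact (not_lt.1 hpos).trans balance_nonneg

/-- infimum of the balance constants of the interval orders of width `w` -/
noncomputable def dI (w : ℕ) : ℝ :=
  sInf {d : ℝ | ∃ (P : Type) (_ : Fintype P) (_ : PartialOrder P), IsIntervalOrder P ∧
    HasWidth P w ∧ balance P = d}

theorem dI_ge (w : ℕ) (hw : 1 ≤ w) : 1 / 2 - 3 * (1 + Real.log w) / Real.sqrt w ≤ dI w := by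
  unfold dI
  apply le_csInf
  · obtain ⟨P, i1, i2, h1, h2, -⟩ := exists_interval w hw
    exact ⟨_, P, i1, i2, h1, h2, rfl⟩
  · rintro d ⟨P, _, _, h1, h2, rfl⟩
    exact interval_balance P h1 w hw h2

theorem dI_le (w : ℕ) (hw : 1 ≤ w) : dI w ≤ 1 / 2 - 1 / (12 * (w : ℝ) - 8) := by
  obtain ⟨P, i1, i2, h1, h2, h3⟩ := exists_interval w hw
  refine le_trans ?_ h3
  unfold dI
  apply csInf_le
  · refine ⟨0, ?_⟩
    rintro d ⟨Q, _, _, _, h4, rfl⟩
    obtain ⟨⟨A, _, hAc⟩, _⟩ := h4
    have hne : Nonempty Q := by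
      obtain ⟨x, _⟩ := Finset.card_pos.1 (show 0 < A.card by omega)
      exact ⟨x⟩
    exact balance_nonneg
  · exact ⟨P, i1, i2, h1, h2, rfl⟩

theorem dI_tendsto : Filter.Tendsto dI Filter.atTop (nhds (1 / 2)) := by
  have h1 : Filter.Tendsto (fun w : ℕ => 1 / 2 - 3 * (1 + Real.log w) / Real.sqrt w)
      Filter.atTop (nhds (1 / 2)) := by
    have h2 : Filter.Tendsto (fun x : ℝ => Real.log x / Real.sqrt x) Filter.atTop (nhds 0) := by
      have := (isLittleO_log_rpow_atTop (show (0:ℝ) < 1 / 2 by norm_num)).tendsto_div_nhds_zero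
      refine this.congr' ?_
      filter_upwards with x
      rw [Real.sqrt_eq_rpow]
    have h3 : Filter.Tendsto (fun x : ℝ => 1 / Real.sqrt x) Filter.atTop (nhds 0) := by
      simp only [one_div]
      exact tendsto_inv_atTop_zero.comp Real.tendsto_sqrt_atTop
    have h4 : Filter.Tendsto (fun x : ℝ => 1 / 2 - 3 * (1 / Real.sqrt x + Real.log x / Real.sqrt x))
        Filter.atTop (nhds (1 / 2 - 3 * (0 + 0))) :=
      tendsto_const_nhds.sub ((h3.add h2).const_mul 3)
    have h5 := h4.comp (tendsto_natCast_atTop_atTop (R := ℝ))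
    have e : (1 / 2 - 3 * (0 + 0) : ℝ) = 1 / 2 := by norm_num
    rw [e] at h5
    refine h5.congr ?_
    intro w
    simp only [Function.comp]
    ring
  refine tendsto_of_tendsto_of_tendsto_of_le_of_le' h1 tendsto_const_nhds ?_ ?_
  · filter_upwards [Filter.eventually_ge_atTop 1] with w hw
    exact dI_ge w hw
  · filter_upwards [Filter.eventually_ge_atTop 1] with w hw
    refine (dI_le w hw).trans ?_
    have hw1 : (1 : ℝ) ≤ w := by exact_mod_cast hw
    have : (0 : ℝ) ≤ 1 / (12 * (w : ℝ) - 8) := by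
      apply div_nonneg (by norm_num); linarith
    linarith

theorem dI_growth (w : ℕ) (hw : 1 ≤ w) : ∃ W : ℕ, ∀ v, W ≤ v → dI w < dI v := by
  have h1 : dI w < 1 / 2 := by
    refine (dI_le w hw).trans_lt ?_
    have hw1 : (1 : ℝ) ≤ w := by exact_mod_cast hw
    have : (0 : ℝ) < 1 / (12 * (w : ℝ) - 8) := by
      apply div_pos (by norm_num); linarith
    linarith
  have h2 := dI_tendsto.eventually (lt_mem_nhds h1)
  rw [Filter.eventually_atTop] at h2
  obtain ⟨W, hW⟩ := h2
  exact ⟨W, fun v hv => hW v hv⟩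

end Pool.Agent.TH447.KS
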