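import Mathlib
import Pool.Agent.TH447.KS.Ladder

set_option autoImplicit false

/-!
# Moving elements to their first or last possible position; Brightwell's argument
-/

open Finset Classical

namespace Pool.Agent.TH447.KS

variable {P : Type} [Fintype P]

/-- comparing two sets of linear extensions class by class -/
lemma card_le_of_classes (r : P → P → Prop) (y : P) (M : ℕ) (hM : inc r y ≤ M)
    (X Y : Ord P → Prop) [DecidablePred X] [DecidablePred Y] (h : ∀ f ∈ Lin r, X f → ∃ g ∈ Lin r, Same y g f ∧ Y g) :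
    (((Lin r).filter X).card : ℝ) ≤ M * ((Lin r).filter Y).card := by
  have h1 : ∑ f ∈ Lin r, (if X f then (1 : ℝ) else 0) ≤
      ∑ f ∈ Lin r, (M : ℝ) * (if Y f then (1 : ℝ) else 0) := by
    apply sum_le_sum_classes r y
    intro f₀ hf₀
    rw [← mul_sum, Finset.sum_boole, Finset.sum_boole]
    set K := (Lin r).filter (fun f => Same y f f₀) with hK
    by_cases hne : ∃ f ∈ K, X f
    · obtain ⟨f, hfK, hXf⟩ := hne
      rw [hK, mem_filter] at hfK
      obtain ⟨g, hg, hgf, hYg⟩ := h f hfK.1 hXf
      have hgK : g ∈ K.filter Y := by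
        rw [mem_filter, hK, mem_filter]
        exact ⟨⟨hg, hgf.trans hfK.2⟩, hYg⟩
      have h1 : (1 : ℝ) ≤ (K.filter Y).card := by
        have : 1 ≤ (K.filter Y).card := card_pos.2 ⟨g, hgK⟩
        exact_mod_cast this
      have h2 : ((K.filter X).card : ℝ) ≤ M := by
        have : (K.filter X).card ≤ M :=
          (card_le_card (filter_subset _ _)).trans ((card_class_le hf₀).trans hM)
        exact_mod_cast this
      nlinarith [Nat.cast_nonneg (α := ℝ) M]
    · push Not at hne
      have : K.filter X = ∅ := by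
        rw [filter_eq_empty_iff]
        exact hne
      rw [this, card_empty, Nat.cast_zero]
      positivity
  rw [Finset.sum_boole, ← mul_sum, Finset.sum_boole] at h1
  exact h1

/-- moving `v` before all elements of `S` -/
lemma flex_first {r : P → P → Prop} {v : P} (S : P → Prop) (hvS : ∀ s, r v s → S s)
    (hS : ¬ S v) (hD : ∀ w s, r w v → S s → r w s) {f : Ord P} (hf : f ∈ Lin r) :
    ∃ g ∈ Lin r, Same v g f ∧ ∀ s, S s → g v < g s := by
  have hvv : ¬ r v v := fun h => lt_irrefl _ ((mem_Lin.1 hf) v v h)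
  obtain ⟨g, hg, hgv⟩ := exists_insert f v (bef' f v S) (bef'_lt _ _ _)
  have e : bef' g v S = bef' f v S := bef'_same hg S hS
  have h1 : ∀ s, S s → g v < g s := fun s hs =>
    pos_gt (S := S) (fun h => hS (h ▸ hs)) hs (by rw [e, hgv])
  refine ⟨g, mem_class hf hg ?_ (fun w hw => h1 w (hvS w hw)), hg, h1⟩
  intro w hw
  have hwv : w ≠ v := by rintro rfl; exact hvv hw
  refine pos_lt (S := S) hwv ?_ (by rw [e, hgv])
  intro s hs
  exact (hg w s hwv (fun h => hS (h ▸ hs))).2 ((mem_Lin.1 hf) w s (hD w s hw hs))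

/-- moving `z` after everything that is before all elements above `z` -/
lemma flex_last {r : P → P → Prop} (htr : ∀ a b c, r a b → r b c → r a c) {z : P} {f : Ord P}
    (hf : f ∈ Lin r) :
    ∃ g ∈ Lin r, Same z g f ∧ ∀ w, w ≠ z → (∀ s, r z s → f w < f s) → g w < g z := by
  have hzz : ¬ r z z := fun h => lt_irrefl _ ((mem_Lin.1 hf) z z h)
  obtain ⟨g, hg, hgz⟩ := exists_insert f z (bef' f z (r z)) (bef'_lt _ _ _)
  have e : bef' g z (r z) = bef' f z (r z) := bef'_same hg (r z) hzz
  have h2 : ∀ w, w ≠ z → (∀ s, r z s → f w < f s) → g w < g z := by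
    intro w hw hws
    refine pos_lt (S := r z) hw ?_ (by rw [e, hgz])
    intro s hs
    exact (hg w s hw (fun h => hzz (h ▸ hs))).2 (hws s hs)
  refine ⟨g, mem_class hf hg ?_ ?_, hg, h2⟩
  · intro w hw
    exact h2 w (by rintro rfl; exact hzz hw) (fun s hs => (mem_Lin.1 hf) w s (htr w z s hw hs))
  · intro w hw
    exact pos_gt (S := r z) (by rintro rfl; exact hzz hw) hw (by rw [e, hgz])

/-- two incomparable elements of an interval order occur in both orders with positive density -/
lemma flex_pair {r : P → P → Prop} (htr : ∀ a b c, r a b → r b c → r a c)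
    (hirr : ∀ a, ¬ r a a) (h22 : ∀ a b c d, r a b → r c d → r a d ∨ r c b)
    {M : ℕ} (hM : ∀ x, inc r x ≤ M) {v z : P} (hvz : v ≠ z) (h1 : ¬ r z v) :
    ((Lin r).card : ℝ) ≤ M * (M * ((Lin r).filter (fun f => f v < f z)).card) := by
  by_cases hrvz : r v z
  · have e : (Lin r).filter (fun f => f v < f z) = Lin r := by
      rw [filter_eq_self]
      intro f hf
      exact (mem_Lin.1 hf) v z hrvz
    rw [e]
    have hM1 : (1 : ℝ) ≤ M := by
      have : 1 ≤ M := by
        refine le_trans ?_ (hM v)
        rw [← card_incS (hirr v)]; omega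
      exact_mod_cast this
    have h0 : (0 : ℝ) ≤ (Lin r).card := Nat.cast_nonneg _
    nlinarith [mul_nonneg (mul_nonneg (sub_nonneg.2 hM1) (by linarith : (0:ℝ) ≤ (M:ℝ))) h0,
      mul_nonneg (sub_nonneg.2 hM1) h0]
  · have hA := card_le_of_classes r v M (hM v) (fun _ => True) (fun f => ∀ s, r z s → f v < f s)
      (by
        intro f hf _
        obtain ⟨g, hg, hgf, hgs⟩ := flex_first (r := r) (v := v) (fun s => r v s ∨ r z s)
          (fun s hs => Or.inl hs) (by
            rintro (h | h)
            · exact hirr v h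
            · exact h1 h)
          (by
            rintro w s hw (h | h)
            · exact htr w v s hw h
            · rcases h22 w v z s hw h with h' | h'
              · exact h'
              · exact absurd h' h1) hf
        exact ⟨g, hg, hgf, fun s hs => hgs s (Or.inr hs)⟩)
    have hB := card_le_of_classes r z M (hM z) (fun f => ∀ s, r z s → f v < f s)
      (fun f => f v < f z) (by
        intro f hf hX
        obtain ⟨g, hg, hgf, hgs⟩ := flex_last htr (z := z) hf
        exact ⟨g, hg, hgf, hgs v hvz hX⟩)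
    rw [filter_true] at hA
    exact hA.trans (mul_le_mul_of_nonneg_left hB (Nat.cast_nonneg _))

/-- two elements come before an element incomparable to both with positive density -/
lemma flex_triple {r : P → P → Prop} (htr : ∀ a b c, r a b → r b c → r a c)
    (hirr : ∀ a, ¬ r a a) (h22 : ∀ a b c d, r a b → r c d → r a d ∨ r c b)
    {M : ℕ} (hM : ∀ x, inc r x ≤ M) {x y u : P} (hxy : x ≠ y) (hxu : x ≠ u) (hyu : y ≠ u)
    (h1 : ¬ r u x) (h2 : ¬ r u y) :
    ((Lin r).card : ℝ) ≤ M * (M * (M * ((Lin r).filter (fun f => f x < f u ∧ f y < f u)).card)) := by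
  have hA := card_le_of_classes r x M (hM x) (fun _ => True) (fun f => ∀ s, r u s → f x < f s)
    (by
      intro f hf _
      obtain ⟨g, hg, hgf, hgs⟩ := flex_first (r := r) (v := x) (fun s => r x s ∨ r u s)
        (fun s hs => Or.inl hs) (by
          rintro (h | h)
          · exact hirr x h
          · exact h1 h)
        (by
          rintro w s hw (h | h)
          · exact htr w x s hw h
          · rcases h22 w x u s hw h with h' | h'
            · exact h'
            · exact absurd h' h1) hf
      exact ⟨g, hg, hgf, fun s hs => hgs s (Or.inr hs)⟩)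
  have hB := card_le_of_classes r y M (hM y) (fun f => ∀ s, r u s → f x < f s)
    (fun f => (∀ s, r u s → f x < f s) ∧ (∀ s, r u s → f y < f s)) (by
      intro f hf hX
      obtain ⟨g, hg, hgf, hgs⟩ := flex_first (r := r) (v := y) (fun s => r y s ∨ r u s)
        (fun s hs => Or.inl hs) (by
          rintro (h | h)
          · exact hirr y h
          · exact h2 h)
        (by
          rintro w s hw (h | h)
          · exact htr w y s hw h
          · rcases h22 w y u s hw h with h' | h'
            · exact h'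
            · exact absurd h' h2) hf
      refine ⟨g, hg, hgf, fun s hs => ?_, fun s hs => hgs s (Or.inr hs)⟩
      exact (hgf x s hxy (by rintro rfl; exact h2 hs)).2 (hX s hs))
  have hC := card_le_of_classes r u M (hM u)
    (fun f => (∀ s, r u s → f x < f s) ∧ (∀ s, r u s → f y < f s))
    (fun f => f x < f u ∧ f y < f u) (by
      rintro f hf ⟨hX, hY⟩
      obtain ⟨g, hg, hgf, hgs⟩ := flex_last htr (z := u) hf
      exact ⟨g, hg, hgf, hgs x hxu hX, hgs y hyu hY⟩)
  rw [filter_true] at hA
  exact hA.trans (mul_le_mul_of_nonneg_left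
    (hB.trans (mul_le_mul_of_nonneg_left hC (Nat.cast_nonneg _))) (Nat.cast_nonneg _))

section brightwell

variable {r : P → P → Prop} {x y z : P}

/-- the configuration of Brightwell's argument -/
structure Conf (r : P → P → Prop) (x y z : P) : Prop where
  hxy : x ≠ y
  nxy : ¬ r x y
  nyx : ¬ r y x
  hD : ∀ w, r w x ↔ r w y
  hU : ∀ w, r x w ↔ (r y w ∨ w = z)
  nyz : ¬ r y z
  nzy : ¬ r z y
  hDz : ∀ w, r w y → r w z
  hUz : ∀ w, r z w → r y w

/-- separated event -/
def Sep (r : P → P → Prop) (y z : P) (f : Ord P) : Prop :=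
  (∃ s, r y s ∧ f s < f z) ∨ (∃ s, r s z ∧ f y < f s)

variable (h : Conf r x y z)
include h

lemma Conf.rxz : r x z := (h.hU z).2 (Or.inr rfl)

lemma Conf.hzy : z ≠ y := by
  rintro rfl
  exact h.nxy h.rxz

lemma Conf.hzx (hirr : ∀ a, ¬ r a a) : z ≠ x := by
  rintro rfl
  exact hirr _ h.rxz

/-- swapping `x` and `y` when `y` is first -/
lemma Conf.swap1 {f : Ord P} (hf : f ∈ Lin r) (hlt : f y < f x) :
    (Equiv.swap y x).trans f ∈ Lin r := by
  apply swap_mem hf h.nyx h.nxy hlt
  · intro s hs
    exact ((mem_Lin.1 hf) x s ((h.hU s).2 (Or.inl hs))).le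
  · intro s hs
    exact ((mem_Lin.1 hf) s y ((h.hD s).1 hs)).le

/-- swapping `x` and `y` when `x` is first and `z` is last -/
lemma Conf.swap2 {f : Ord P} (hf : f ∈ Lin r) (hlt : f x < f y) (hyz : f y < f z) :
    (Equiv.swap x y).trans f ∈ Lin r := by
  apply swap_mem hf h.nxy h.nyx hlt
  · intro s hs
    rcases (h.hU s).1 hs with h1 | h1
    · exact ((mem_Lin.1 hf) y s h1).le
    · rw [h1]; exact hyz.le
  · intro s hs
    exact ((mem_Lin.1 hf) s x ((h.hD s).2 hs)).le

lemma Conf.c1_eq (hirr : ∀ a, ¬ r a a) : ((Lin r).filter (fun f => f y < f x)).card =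
    ((Lin r).filter (fun f => f x < f y ∧ f y < f z)).card := by
  apply le_antisymm
  · apply card_le_card_of_injOn (fun f => (Equiv.swap y x).trans f)
    · intro f hf
      rw [mem_coe, mem_filter] at hf
      rw [mem_coe, mem_filter]
      refine ⟨h.swap1 hf.1 hf.2, ?_, ?_⟩
      · simp only [Equiv.trans_apply, Equiv.swap_apply_left, Equiv.swap_apply_right]
        exact hf.2
      · simp only [Equiv.trans_apply, Equiv.swap_apply_left,
          Equiv.swap_apply_of_ne_of_ne h.hzy (h.hzx hirr)]
        exact (mem_Lin.1 hf.1) x z h.rxz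
    · intro f _ g _ hfg
      exact swap_inj y x hfg
  · apply card_le_card_of_injOn (fun f => (Equiv.swap x y).trans f)
    · intro f hf
      rw [mem_coe, mem_filter] at hf
      rw [mem_coe, mem_filter]
      refine ⟨h.swap2 hf.1 hf.2.1 hf.2.2, ?_⟩
      simp only [Equiv.trans_apply, Equiv.swap_apply_left, Equiv.swap_apply_right]
      exact hf.2.1
    · intro f _ g _ hfg
      exact swap_inj x y hfg

lemma Conf.c3_le (hirr : ∀ a, ¬ r a a) : ((Lin r).filter (fun f => f z < f y)).card ≤
    ((Lin r).filter (fun f => f x < f y ∧ f y < f z ∧ ¬ Sep r y z f)).card := by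
  apply card_le_card_of_injOn (fun f => (Equiv.swap z y).trans f)
  · intro f hf
    rw [mem_coe, mem_filter] at hf
    obtain ⟨hf, hlt⟩ := hf
    have hf' := mem_Lin.1 hf
    have hxz' : f x < f z := hf' x z h.rxz
    have ez : ((Equiv.swap z y).trans f) z = f y := by simp
    have ey : ((Equiv.swap z y).trans f) y = f z := by simp
    have eo : ∀ w, w ≠ z → w ≠ y → ((Equiv.swap z y).trans f) w = f w := by
      intro w h1 h2
      simp [Equiv.swap_apply_of_ne_of_ne h1 h2]
    rw [mem_coe, mem_filter]
    refine ⟨?_, ?_, ?_, ?_⟩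
    · apply swap_mem hf h.nzy h.nyz hlt
      · intro s hs
        exact (hf' y s (h.hUz s hs)).le
      · intro s hs
        exact (hf' s z (h.hDz s hs)).le
    · rw [ey, eo x (h.hzx hirr).symm h.hxy]
      exact hxz'
    · rw [ey, ez]; exact hlt
    · rintro (⟨s, hs, hlt'⟩ | ⟨s, hs, hlt'⟩)
      · have h1 : s ≠ z := by rintro rfl; exact h.nyz hs
        have h2 : s ≠ y := by rintro rfl; exact hirr _ hs
        rw [ez, eo s h1 h2] at hlt'
        exact lt_asymm hlt' (hf' y s hs)
      · have h1 : s ≠ z := by rintro rfl; exact hirr _ hs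
        have h2 : s ≠ y := by rintro rfl; exact h.nyz hs
        rw [ey, eo s h1 h2] at hlt'
        exact lt_asymm hlt' (hf' s z hs)
  · intro f _ g _ hfg
    exact swap_inj z y hfg

/-- **Brightwell's argument with the excess term.** -/
theorem Conf.main (hirr : ∀ a, ¬ r a a) :
    ((Lin r).card : ℝ) + ((Lin r).filter (fun f => f x < f y ∧ f y < f z ∧ Sep r y z f)).card ≤
      3 * cnt r y x ∧ cnt r y x ≤ cnt r x y := by
  set c1 := ((Lin r).filter (fun f => f y < f x)).card with hc1
  set c2 := ((Lin r).filter (fun f => f x < f y ∧ f y < f z)).card with hc2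
  set c3 := ((Lin r).filter (fun f => f z < f y)).card with hc3
  set σ := ((Lin r).filter (fun f => f x < f y ∧ f y < f z ∧ Sep r y z f)).card with hσ
  set τ := ((Lin r).filter (fun f => f x < f y ∧ f y < f z ∧ ¬ Sep r y z f)).card with hτ
  have e1 : c1 = c2 := h.c1_eq hirr
  have e2 : c3 ≤ τ := h.c3_le hirr
  have e3 : σ + τ = c2 := by
    rw [hσ, hτ, hc2, ← card_union_of_disjoint]
    · congr 1
      ext f
      simp only [mem_union, mem_filter]
      tauto
    · rw [disjoint_left]
      intro f h1 h2
      rw [mem_filter] at h1 h2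
      exact h2.2.2.2 h1.2.2.2
  have e4 : (Lin r).card ≤ c1 + c2 + c3 := by
    have : Lin r ⊆ ((Lin r).filter (fun f => f y < f x) ∪
        (Lin r).filter (fun f => f x < f y ∧ f y < f z)) ∪ (Lin r).filter (fun f => f z < f y) := by
      intro f hf
      simp only [mem_union, mem_filter]
      rcases lt_trichotomy (f x) (f y) with h1 | h1 | h1
      · rcases lt_trichotomy (f y) (f z) with h2 | h2 | h2
        · exact Or.inl (Or.inr ⟨hf, h1, h2⟩)
        · exact absurd (f.injective h2).symm h.hzy
        · exact Or.inr ⟨hf, h2⟩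
      · exact absurd (f.injective h1) h.hxy
      · exact Or.inl (Or.inl ⟨hf, h1⟩)
    refine (card_le_card this).trans ((card_union_le _ _).trans ?_)
    have := card_union_le ((Lin r).filter (fun f => f y < f x))
      ((Lin r).filter (fun f => f x < f y ∧ f y < f z))
    omega
  have hcyx : cnt r y x = c1 := by
    unfold cnt; rw [Finset.sum_boole]
  have hcxy : (c2 : ℝ) ≤ cnt r x y := by
    unfold cnt
    rw [Finset.sum_boole]
    have : c2 ≤ ((Lin r).filter (fun f => f x < f y)).card := by
      apply card_le_card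
      intro f hf
      rw [mem_filter] at hf ⊢
      exact ⟨hf.1, hf.2.1⟩
    exact_mod_cast this
  constructor
  · rw [hcyx]
    have : (Lin r).card + σ ≤ 3 * c1 := by omega
    exact_mod_cast this
  · rw [hcyx, e1]; exact hcxy

lemma Conf.sep_ge_v (hirr : ∀ a, ¬ r a a) {v : P} (hyv : r y v) :
    ((Lin r).filter (fun f => f v < f z)).card ≤
      2 * ((Lin r).filter (fun f => f x < f y ∧ f y < f z ∧ Sep r y z f)).card := by
  have hvx : v ≠ x := by rintro rfl; exact h.nyx hyv
  have hvy : v ≠ y := by rintro rfl; exact hirr _ hyv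
  have h1 : ((Lin r).filter (fun f => f v < f z)) ⊆
      ((Lin r).filter (fun f => f x < f y ∧ f v < f z)) ∪
      ((Lin r).filter (fun f => f y < f x ∧ f v < f z)) := by
    intro f hf
    simp only [mem_union, mem_filter] at hf ⊢
    rcases lt_trichotomy (f x) (f y) with h1 | h1 | h1
    · exact Or.inl ⟨hf.1, h1, hf.2⟩
    · exact absurd (f.injective h1) h.hxy
    · exact Or.inr ⟨hf.1, h1, hf.2⟩
  have h2 : ((Lin r).filter (fun f => f y < f x ∧ f v < f z)).card ≤
      ((Lin r).filter (fun f => f x < f y ∧ f v < f z)).card := by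
    apply card_le_card_of_injOn (fun f => (Equiv.swap y x).trans f)
    · intro f hf
      rw [mem_coe, mem_filter] at hf
      rw [mem_coe, mem_filter]
      refine ⟨h.swap1 hf.1 hf.2.1, ?_, ?_⟩
      · simp only [Equiv.trans_apply, Equiv.swap_apply_left, Equiv.swap_apply_right]
        exact hf.2.1
      · simp only [Equiv.trans_apply, Equiv.swap_apply_of_ne_of_ne hvy hvx,
          Equiv.swap_apply_of_ne_of_ne h.hzy (h.hzx hirr)]
        exact hf.2.2
    · intro f _ g _ hfg
      exact swap_inj y x hfg
  have h3 : ((Lin r).filter (fun f => f x < f y ∧ f v < f z)).card ≤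
      ((Lin r).filter (fun f => f x < f y ∧ f y < f z ∧ Sep r y z f)).card := by
    apply card_le_card
    intro f hf
    rw [mem_filter] at hf ⊢
    exact ⟨hf.1, hf.2.1, ((mem_Lin.1 hf.1) y v hyv).trans hf.2.2, Or.inl ⟨v, hyv, hf.2.2⟩⟩
  have h4 := (card_le_card h1).trans (card_union_le _ _)
  omega

lemma Conf.sep_ge_u {u : P} (huz : r u z) (hux : u ≠ x) (huy : u ≠ y) :
    ((Lin r).filter (fun f => f x < f u ∧ f y < f u)).card ≤
      2 * ((Lin r).filter (fun f => f x < f y ∧ f y < f z ∧ Sep r y z f)).card := by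
  have h1 : ((Lin r).filter (fun f => f x < f u ∧ f y < f u)) ⊆
      ((Lin r).filter (fun f => f x < f y ∧ f y < f u)) ∪
      ((Lin r).filter (fun f => f y < f x ∧ f x < f u)) := by
    intro f hf
    simp only [mem_union, mem_filter] at hf ⊢
    rcases lt_trichotomy (f x) (f y) with h1 | h1 | h1
    · exact Or.inl ⟨hf.1, h1, hf.2.2⟩
    · exact absurd (f.injective h1) h.hxy
    · exact Or.inr ⟨hf.1, h1, hf.2.1⟩
  have h2 : ((Lin r).filter (fun f => f y < f x ∧ f x < f u)).card ≤
      ((Lin r).filter (fun f => f x < f y ∧ f y < f u)).card := by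
    apply card_le_card_of_injOn (fun f => (Equiv.swap y x).trans f)
    · intro f hf
      rw [mem_coe, mem_filter] at hf
      rw [mem_coe, mem_filter]
      refine ⟨h.swap1 hf.1 hf.2.1, ?_, ?_⟩
      · simp only [Equiv.trans_apply, Equiv.swap_apply_left, Equiv.swap_apply_right]
        exact hf.2.1
      · simp only [Equiv.trans_apply, Equiv.swap_apply_left,
          Equiv.swap_apply_of_ne_of_ne huy hux]
        exact hf.2.2
    · intro f _ g _ hfg
      exact swap_inj y x hfg
  have h3 : ((Lin r).filter (fun f => f x < f y ∧ f y < f u)).card ≤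
      ((Lin r).filter (fun f => f x < f y ∧ f y < f z ∧ Sep r y z f)).card := by
    apply card_le_card
    intro f hf
    rw [mem_filter] at hf ⊢
    exact ⟨hf.1, hf.2.1, hf.2.2.trans ((mem_Lin.1 hf.1) u z huz), Or.inr ⟨u, huz, hf.2.2⟩⟩
  have h4 := (card_le_card h1).trans (card_union_le _ _)
  omega

end brightwell

end Pool.Agent.TH447.KS
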