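import Mathlib
import Pool.Agent.TH447.KS.Flex

set_option autoImplicit false

/-!
# Semiorders: antichains, and the case where consecutive elements are incomparable
-/

open Finset Classical

namespace Pool.Agent.TH447.KS

variable {P : Type} [Fintype P]

section basic

variable {r : P → P → Prop} {g : P → ℝ} (hg : ∀ a b, r a b ↔ g a + 1 < g b)
include hg

omit [Fintype P] in
lemma semi_irr : ∀ a, ¬ r a a := by
  intro a h
  rw [hg] at h
  linarith

omit [Fintype P] in
lemma semi_tr : ∀ a b c, r a b → r b c → r a c := by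
  intro a b c h1 h2
  rw [hg] at h1 h2 ⊢
  linarith

omit [Fintype P] in
lemma semi_22 : ∀ a b c d, r a b → r c d → r a d ∨ r c b := by
  intro a b c d h1 h2
  simp only [hg] at h1 h2 ⊢
  rcases le_total (g a) (g c) with h | h
  · left; linarith
  · right; linarith

lemma semi_inc {w : ℕ} (hw : ∀ A : Finset P, (∀ a ∈ A, ∀ b ∈ A, ¬ r a b) → A.card ≤ w) (x : P) :
    inc r x ≤ 2 * w - 1 := by
  set L := univ.filter (fun z => g x - 1 ≤ g z ∧ g z ≤ g x) with hL
  set U := univ.filter (fun z => g x ≤ g z ∧ g z ≤ g x + 1) with hU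
  have hLw : L.card ≤ w := by
    apply hw
    intro a ha b hb hab
    rw [hL, mem_filter] at ha hb
    rw [hg] at hab
    linarith [ha.2.1, hb.2.2]
  have hUw : U.card ≤ w := by
    apply hw
    intro a ha b hb hab
    rw [hU, mem_filter] at ha hb
    rw [hg] at hab
    linarith [ha.2.1, hb.2.2]
  have h1 : (univ.filter (fun z => ¬ r x z ∧ ¬ r z x)) ⊆ L ∪ U := by
    intro z hz
    simp only [mem_filter, mem_univ, true_and, mem_union, hL, hU] at hz ⊢
    rw [hg, hg, not_lt, not_lt] at hz
    rcases le_total (g z) (g x) with h | h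
    · left; exact ⟨by linarith [hz.2], h⟩
    · right; exact ⟨h, hz.1⟩
  have h2 : x ∈ L ∩ U := by
    simp only [mem_inter, hL, hU, mem_filter, mem_univ, true_and]
    refine ⟨⟨by linarith, le_rfl⟩, ⟨le_rfl, by linarith⟩⟩
  have h3 : 0 < (L ∩ U).card := card_pos.2 ⟨x, h2⟩
  have h4 := card_union_add_card_inter L U
  have h5 := card_le_card h1
  unfold inc
  omega

end basic

lemma exists_sorted (A : Finset P) (p : P → ℝ) (hA : 0 < A.card) :
    ∃ z : ℕ → P, (∀ i, z i ∈ A) ∧ (∀ i j, i < A.card → j < A.card → z i = z j → i = j) ∧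
      (∀ a ∈ A, ∃ i, i < A.card ∧ z i = a) ∧ (∀ i j, i ≤ j → p (z i) ≤ p (z j)) := by
  obtain ⟨e0⟩ : Nonempty (Fin A.card ≃ A) := ⟨(A.equivFin).symm⟩
  set σ := Tuple.sort (fun i => p (e0 i : P)) with hσ
  have hmono : Monotone ((fun i => p (e0 i : P)) ∘ σ) := Tuple.monotone_sort _
  refine ⟨fun n => (e0 (σ ⟨min n (A.card - 1), by omega⟩) : P), fun i => (e0 _).2, ?_, ?_, ?_⟩
  · intro i j hi hj h
    have h1 := σ.injective (e0.injective (Subtype.ext h))
    have h2 := congrArg Fin.val h1
    simp only at h2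
    omega
  · intro a ha
    refine ⟨(σ.symm (e0.symm ⟨a, ha⟩) : Fin A.card), (σ.symm (e0.symm ⟨a, ha⟩)).2, ?_⟩
    have h1 : (⟨min ((σ.symm (e0.symm ⟨a, ha⟩) : Fin A.card) : ℕ) (A.card - 1), by omega⟩ :
        Fin A.card) = σ.symm (e0.symm ⟨a, ha⟩) := by
      apply Fin.ext
      have := (σ.symm (e0.symm ⟨a, ha⟩)).2
      simp only
      omega
    simp only
    rw [h1]
    simp
  · intro i j hij
    apply hmono
    rw [Fin.le_def]
    simp only
    omega

/-- **Semiorders of large width.** -/
theorem semi_large {r : P → P → Prop} {g : P → ℝ} (hg : ∀ a b, r a b ↔ g a + 1 < g b) {w : ℕ}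
    (hw : ∀ A : Finset P, (∀ a ∈ A, ∀ b ∈ A, ¬ r a b) → A.card ≤ w)
    (A : Finset P) (hA : ∀ a ∈ A, ∀ b ∈ A, ¬ r a b) (hAw : A.card = w) (hw2 : 2 ≤ w) :
    ∃ x y, x ≠ y ∧ |cnt r x y - cnt r y x| ≤
      2 * ((harmonic (2 * w - 1) : ℝ) / ((w - 1 : ℕ) : ℝ)) * (Lin r).card := by
  obtain ⟨z, hz1, hz2, -, hz4⟩ := exists_sorted A g (by omega)
  obtain ⟨i, hi, h⟩ := chain_pair r z (w - 1) (by omega)
    (fun i _ j _ => hA _ (hz1 i) _ (hz1 j))
    (fun i _ j _ a t h1 h2 => by
      rcases semi_22 hg a (z i) (z j) t h1 h2 with h | h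
      · exact h
      · exact absurd h (hA _ (hz1 j) _ (hz1 i)))
    (Or.inl fun i _ s hs => by
      rw [hg] at hs ⊢
      linarith [hz4 i (i + 1) (Nat.le_succ i)])
    (Or.inr fun i _ s hs => by
      rw [hg] at hs ⊢
      linarith [hz4 i (i + 1) (Nat.le_succ i)])
    (2 * w - 1) (fun i _ => semi_inc hg hw (z i))
  refine ⟨z i, z (i + 1), ?_, ?_⟩
  · intro he
    have := hz2 i (i + 1) (by omega) (by omega) he
    omega
  · refine h.trans (le_of_eq ?_)
    ring

/-- twins are balanced -/
lemma twins {r : P → P → Prop} {x y : P} (hxy : x ≠ y) (h1 : ¬ r x y) (h2 : ¬ r y x)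
    (hD : ∀ w, r w x ↔ r w y) (hU : ∀ w, r x w ↔ r y w) :
    1 / 2 * ((Lin r).card : ℝ) ≤ cnt r x y ∧ 1 / 2 * ((Lin r).card : ℝ) ≤ cnt r y x := by
  have h := pair_abs h1 h2
  rw [ups_zero (fun s => (hU s).1), ups_zero (fun s => (hU s).2),
    dns_zero (fun s => (hD s).1), dns_zero (fun s => (hD s).2)] at h
  have h3 := half_of_abs' hxy (c := 0) (by linarith)
  constructor <;> linarith [h3.1, h3.2]

/-- sorted semiorder in which consecutive elements are incomparable -/
structure Srt (r : P → P → Prop) (g : P → ℝ) (n : ℕ) (X : ℕ → P) : Prop where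
  card : Fintype.card P = n
  hg : ∀ a b, r a b ↔ g a + 1 < g b
  inj : ∀ i j, i < n → j < n → X i = X j → i = j
  surj : ∀ a, ∃ i, i < n ∧ X i = a
  mono : ∀ i j, i ≤ j → j < n → g (X i) ≤ g (X j)
  cons : ∀ i, i + 1 < n → ¬ r (X i) (X (i + 1))

lemma Srt.flip {r : P → P → Prop} {g : P → ℝ} {n : ℕ} {X : ℕ → P} (h : Srt r g n X) :
    Srt (fun a b => r b a) (fun a => - g a) n (fun i => X (n - 1 - i)) := by
  refine ⟨h.card, ?_, ?_, ?_, ?_, ?_⟩
  · intro a b
    rw [h.hg]
    constructor <;> intro h' <;> linarith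
  · intro i j hi hj he
    have := h.inj _ _ (by omega) (by omega) he
    omega
  · intro a
    obtain ⟨i, hi, rfl⟩ := h.surj a
    refine ⟨n - 1 - i, by omega, ?_⟩
    congr 1
    omega
  · intro i j hij hj
    have := h.mono (n - 1 - j) (n - 1 - i) (by omega) (by omega)
    linarith
  · intro i hi
    have := h.cons (n - 1 - (i + 1)) (by omega)
    rwa [show n - 1 - (i + 1) + 1 = n - 1 - i by omega] at this

/-- number of elements below `p` -/
noncomputable def dn (r : P → P → Prop) (p : P) : ℕ := (univ.filter (fun w => r w p)).card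

/-- number of elements above `p` -/
noncomputable def up (r : P → P → Prop) (p : P) : ℕ := (univ.filter (fun w => r p w)).card

lemma Srt.dn_last {r : P → P → Prop} {g : P → ℝ} {n : ℕ} {X : ℕ → P} (h : Srt r g n X)
    (hn : 2 ≤ n) : dn r (X (n - 1)) ≤ n - 2 := by
  unfold dn
  have h1 : (univ.filter (fun w => r w (X (n - 1)))) ⊆
      (univ.erase (X (n - 1))).erase (X (n - 2)) := by
    intro w hw
    simp only [mem_filter, mem_univ, true_and, mem_erase, ne_eq, and_true] at hw ⊢
    refine ⟨?_, ?_⟩
    · rintro rfl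
      have := h.cons (n - 2) (by omega)
      rw [show n - 2 + 1 = n - 1 by omega] at this
      exact this hw
    · rintro rfl
      exact semi_irr h.hg _ hw
  refine (card_le_card h1).trans ?_
  have hne : X (n - 2) ≠ X (n - 1) := by
    intro he
    have := h.inj _ _ (by omega) (by omega) he
    omega
  rw [card_erase_of_mem (mem_erase.2 ⟨hne, mem_univ _⟩), card_erase_of_mem (mem_univ _),
    card_univ, h.card]
  omega

lemma Srt.up_first {r : P → P → Prop} {g : P → ℝ} {n : ℕ} {X : ℕ → P} (h : Srt r g n X)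
    (hn : 2 ≤ n) : up r (X 0) ≤ n - 2 := by
  have := h.flip.dn_last hn
  rw [show n - 1 - (n - 1) = 0 by omega] at this
  exact this

/-- Some pair of consecutive elements has at most one separating element. -/
lemma Srt.exists_small {r : P → P → Prop} {g : P → ℝ} {n : ℕ} {X : ℕ → P} (h : Srt r g n X)
    (hn : 2 ≤ n) : ∃ i, i + 1 < n ∧
      dn r (X (i + 1)) + up r (X i) ≤ dn r (X i) + up r (X (i + 1)) + 1 := by
  by_contra hcon
  push Not at hcon
  have h1 : ∀ i, i < n → dn r (X 0) + up r (X i) + 2 * i ≤ dn r (X i) + up r (X 0) := by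
    intro i
    induction i with
    | zero => intro _; omega
    | succ i ih =>
      intro hi
      have h2 := ih (by omega)
      have h3 := hcon i hi
      omega
  have h2 := h1 (n - 1) (by omega)
  have h3 := h.dn_last hn
  have h4 := h.up_first hn
  omega

/-- the exceptional poset with three elements -/
def IsE (r : P → P → Prop) : Prop :=
  ∃ a b c : P, a ≠ b ∧ b ≠ c ∧ a ≠ c ∧ (∀ p, p = a ∨ p = b ∨ p = c) ∧ r a c ∧
    ¬ r a b ∧ ¬ r b a ∧ ¬ r b c ∧ ¬ r c b

/-- the conclusion -/
def Concl (r : P → P → Prop) (c : ℝ) : Prop :=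
  (∃ p q, p ≠ q ∧ c * ((Lin r).card : ℝ) ≤ cnt r p q ∧ c * ((Lin r).card : ℝ) ≤ cnt r q p) ∨ IsE r

lemma cnt_flip (r : P → P → Prop) (x y : P) : cnt (fun a b => r b a) x y = cnt r y x := by
  unfold cnt
  rw [sum_rev]
  apply sum_congr rfl
  intro f _
  simp only [rev_lt]

lemma Concl.flip {r : P → P → Prop} {c : ℝ} (h : Concl (fun a b => r b a) c) : Concl r c := by
  rcases h with ⟨p, q, hpq, h1, h2⟩ | ⟨a, b, c', h1, h2, h3, h4, h5, h6, h7, h8, h9⟩
  · left
    rw [cnt_flip, card_rev] at h1 h2
    exact ⟨p, q, hpq, h2, h1⟩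
  · right
    exact ⟨c', b, a, h2.symm, h1.symm, h3.symm, fun p => by
      rcases h4 p with h | h | h
      · exact Or.inr (Or.inr h)
      · exact Or.inr (Or.inl h)
      · exact Or.inl h, h5, h8, h9, h6, h7⟩

/-- the case of one separating element above -/
lemma Srt.caseU {r : P → P → Prop} {g : P → ℝ} {n : ℕ} {X : ℕ → P} (h : Srt r g n X)
    {M : ℕ} (hM : ∀ x, inc r x ≤ M) (hM1 : 1 ≤ M) (i : ℕ) (hi : i + 1 < n)
    (hdn : dn r (X (i + 1)) ≤ dn r (X i)) (hup : up r (X i) = up r (X (i + 1)) + 1) :
    Concl r (1 / 3 + 1 / (6 * (M : ℝ) ^ 3)) := by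
  have hirr := semi_irr h.hg
  have htr := semi_tr h.hg
  have h22 := semi_22 h.hg
  have hgxy : g (X i) ≤ g (X (i + 1)) := h.mono i (i + 1) (Nat.le_succ i) hi
  set x := X i with hx
  set y := X (i + 1) with hy
  have hxy : x ≠ y := by
    intro he
    have := h.inj i (i + 1) (by omega) hi he
    omega
  have nxy : ¬ r x y := h.cons i hi
  have nyx : ¬ r y x := by
    rw [h.hg]; linarith
  have hMR : (1 : ℝ) ≤ M := by exact_mod_cast hM1
  have hM3 : (1 : ℝ) ≤ (M : ℝ) ^ 3 := one_le_pow₀ hMR
  have hcle : 1 / 3 + 1 / (6 * (M : ℝ) ^ 3) ≤ 1 / 2 := by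
    have : 1 / (6 * (M : ℝ) ^ 3) ≤ 1 / 6 := by
      apply one_div_le_one_div_of_le (by norm_num); linarith
    linarith
  -- down-sets agree
  have hDsub : (univ.filter (fun w => r w x)) ⊆ (univ.filter (fun w => r w y)) := by
    intro w hw
    simp only [mem_filter, mem_univ, true_and] at hw ⊢
    rw [h.hg] at hw ⊢; linarith
  have hDeq := eq_of_subset_of_card_le hDsub hdn
  have hD : ∀ w, r w x ↔ r w y := by
    intro w
    have : w ∈ (univ.filter (fun w => r w x)) ↔ w ∈ (univ.filter (fun w => r w y)) := by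
      rw [hDeq]
    simpa using this
  -- the separating element
  have hUsub : (univ.filter (fun w => r y w)) ⊆ (univ.filter (fun w => r x w)) := by
    intro w hw
    simp only [mem_filter, mem_univ, true_and] at hw ⊢
    rw [h.hg] at hw ⊢; linarith
  have hcard1 : ((univ.filter (fun w => r x w)) \ (univ.filter (fun w => r y w))).card = 1 := by
    rw [card_sdiff_of_subset hUsub]
    unfold up at hup
    omega
  obtain ⟨z, hz⟩ := card_eq_one.1 hcard1
  have hzmem : z ∈ (univ.filter (fun w => r x w)) \ (univ.filter (fun w => r y w)) := by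
    rw [hz]; exact mem_singleton_self z
  have hrxz : r x z := by
    have := (mem_sdiff.1 hzmem).1
    simpa using this
  have hnyz : ¬ r y z := by
    have := (mem_sdiff.1 hzmem).2
    simpa using this
  have hU : ∀ w, r x w ↔ (r y w ∨ w = z) := by
    intro w
    constructor
    · intro hw
      by_cases hyw : r y w
      · exact Or.inl hyw
      · right
        have : w ∈ (univ.filter (fun w => r x w)) \ (univ.filter (fun w => r y w)) := by
          rw [mem_sdiff]; simp [hw, hyw]
        rw [hz] at this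
        exact mem_singleton.1 this
    · rintro (hw | rfl)
      · have := hUsub (show w ∈ univ.filter (fun w => r y w) by simpa using hw)
        simpa using this
      · exact hrxz
  have hgxz : g x + 1 < g z := (h.hg x z).1 hrxz
  have hgyx : g y ≤ g x + 1 := by
    by_contra hcon
    exact nxy ((h.hg x y).2 (not_le.1 hcon))
  have hgyz : g y < g z := by linarith
  have conf : Conf r x y z := by
    refine ⟨hxy, nxy, nyx, hD, hU, hnyz, ?_, ?_, ?_⟩
    · rw [h.hg]; linarith
    · intro w hw
      rw [h.hg] at hw ⊢; linarith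
    · intro w hw
      rw [h.hg] at hw ⊢; linarith
  obtain ⟨hm1, hm2⟩ := conf.main hirr
  set σ := ((Lin r).filter (fun f => f x < f y ∧ f y < f z ∧ Sep r y z f)).card with hσ
  have fin : ((Lin r).card : ℝ) ≤ 2 * (M : ℝ) ^ 3 * σ →
      Concl r (1 / 3 + 1 / (6 * (M : ℝ) ^ 3)) := by
    intro hN
    left
    have h1 : (1 / 3 + 1 / (6 * (M : ℝ) ^ 3)) * ((Lin r).card : ℝ) ≤ cnt r y x := by
      have h2 : 1 / (6 * (M : ℝ) ^ 3) * ((Lin r).card : ℝ) ≤ σ / 3 := by
        rw [div_mul_eq_mul_div, one_mul, div_le_div_iff₀ (by positivity) (by norm_num)]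
        nlinarith
      linarith
    exact ⟨x, y, hxy, h1.trans hm2, h1⟩
  obtain ⟨j, hj, hjz⟩ := h.surj z
  have hij : i + 1 < j := by
    by_contra hcon
    have := h.mono j (i + 1) (by omega) hi
    rw [hjz] at this
    linarith
  by_cases hjn : j + 1 < n
  · -- the next element after `z`
    set v := X (j + 1) with hv
    have hvz : v ≠ z := by
      rw [← hjz]
      intro he
      have := h.inj (j + 1) j hjn hj he
      omega
    have hnzv : ¬ r z v := by rw [← hjz]; exact h.cons j hjn
    have hgzv : g z ≤ g v := by rw [← hjz]; exact h.mono j (j + 1) (Nat.le_succ j) hjn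
    have hyv : r y v := by
      have hxv : r x v := by rw [h.hg]; linarith
      rcases (hU v).1 hxv with h1 | h1
      · exact h1
      · exact absurd h1 hvz
    have h1 := flex_pair htr hirr h22 hM hvz hnzv
    have h2 := conf.sep_ge_v hirr hyv
    rw [← hσ] at h2
    apply fin
    have h3 : ((((Lin r).filter (fun f => f v < f z)).card : ℕ) : ℝ) ≤ 2 * σ := by
      exact_mod_cast h2
    calc ((Lin r).card : ℝ) ≤ M * (M * ((Lin r).filter (fun f => f v < f z)).card) := h1
      _ ≤ M * (M * (2 * σ)) := by gcongr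
      _ = 2 * (M : ℝ) ^ 2 * σ := by ring
      _ ≤ 2 * (M : ℝ) ^ 3 * σ := by
        have : (M : ℝ) ^ 2 ≤ (M : ℝ) ^ 3 := pow_le_pow_right₀ hMR (by norm_num)
        have hσ0 : (0 : ℝ) ≤ σ := Nat.cast_nonneg _
        nlinarith
  · have hjn' : j = n - 1 := by omega
    have hmax : ∀ p, g p ≤ g z := by
      intro p
      obtain ⟨k, hk, rfl⟩ := h.surj p
      rw [← hjz]
      exact h.mono k j (by omega) hj
    by_cases hi0 : 1 ≤ i
    · set u := X (i - 1) with hu
      have hux : u ≠ x := by
        intro he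
        have := h.inj (i - 1) i (by omega) (by omega) he
        omega
      have huy : u ≠ y := by
        intro he
        have := h.inj (i - 1) (i + 1) (by omega) hi he
        omega
      have hgux : g u ≤ g x := h.mono (i - 1) i (by omega) (by omega)
      have hnux : ¬ r u x := by
        have := h.cons (i - 1) (by omega)
        rwa [show i - 1 + 1 = i by omega] at this
      have hnuy : ¬ r u y := fun h' => hnux ((hD u).2 h')
      have huz : r u z := by rw [h.hg]; linarith
      have h1 := flex_triple htr hirr h22 hM hxy hux.symm huy.symm hnux hnuy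
      have h2 := conf.sep_ge_u huz hux huy
      rw [← hσ] at h2
      apply fin
      have h3 : ((((Lin r).filter (fun f => f x < f u ∧ f y < f u)).card : ℕ) : ℝ) ≤ 2 * σ := by
        exact_mod_cast h2
      calc ((Lin r).card : ℝ) ≤
          M * (M * (M * ((Lin r).filter (fun f => f x < f u ∧ f y < f u)).card)) := h1
        _ ≤ M * (M * (M * (2 * σ))) := by gcongr
        _ = 2 * (M : ℝ) ^ 3 * σ := by ring
    · have hi0' : i = 0 := by omega
      have hmin : ∀ p, g x ≤ g p := by
        intro p
        obtain ⟨k, hk, rfl⟩ := h.surj p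
        rw [hx, hi0']
        exact h.mono 0 k (Nat.zero_le _) hk
      have hDx : ∀ w, ¬ r w x := by
        intro w hw
        rw [h.hg] at hw
        linarith [hmin w]
      have hUy : ∀ w, ¬ r y w := by
        intro w hw
        rw [h.hg] at hw
        apply hnyz
        rw [h.hg]
        linarith [hmax w]
      by_cases hn3 : n = 3
      · right
        have hj2 : j = 2 := by omega
        refine ⟨x, y, z, hxy, conf.hzy.symm, (conf.hzx hirr).symm, ?_, hrxz, nxy, nyx, hnyz,
          conf.nzy⟩
        intro p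
        obtain ⟨k, hk, rfl⟩ := h.surj p
        have : k = 0 ∨ k = 1 ∨ k = 2 := by omega
        rcases this with rfl | rfl | rfl
        · left; rw [hx, hi0']
        · right; left; rw [hy, hi0']
        · right; right; rw [← hjz, hj2]
      · set t := X 2 with ht
        have htn : 2 < n - 1 := by omega
        have hty : y ≠ t := by
          rw [hy, hi0']
          intro he
          have := h.inj (0 + 1) 2 (by omega) (by omega) he
          omega
        have htz : t ≠ z := by
          rw [← hjz]
          intro he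
          have := h.inj 2 j (by omega) hj he
          omega
        have hgyt : g y ≤ g t := by
          rw [hy, hi0']
          exact h.mono (0 + 1) 2 (by omega) (by omega)
        have hUt : ∀ w, ¬ r t w := by
          intro w hw
          apply hUy w
          rw [h.hg] at hw ⊢
          linarith
        have hDt : ∀ w, ¬ r w t := by
          intro w hw
          have hxt : r x t := by
            rw [h.hg] at hw ⊢
            linarith [hmin w]
          rcases (hU t).1 hxt with h' | h'
          · exact hUy t h'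
          · exact htz h'
        have hDy : ∀ w, ¬ r w y := fun w hw => hDx w ((hD w).2 hw)
        left
        obtain ⟨h1, h2⟩ := twins (r := r) hty (hUy t) (hUt y)
          (fun w => ⟨fun h' => absurd h' (hDy w), fun h' => absurd h' (hDt w)⟩)
          (fun w => ⟨fun h' => absurd h' (hUy w), fun h' => absurd h' (hUt w)⟩)
        have hN : (0 : ℝ) ≤ (Lin r).card := Nat.cast_nonneg _
        refine ⟨y, t, hty, le_trans ?_ h1, le_trans ?_ h2⟩
        · exact mul_le_mul_of_nonneg_right hcle hN
        · exact mul_le_mul_of_nonneg_right hcle hN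

/-- **Semiorders in which consecutive elements are incomparable.** -/
theorem Srt.main {r : P → P → Prop} {g : P → ℝ} {n : ℕ} {X : ℕ → P} (h : Srt r g n X)
    (hn : 2 ≤ n) {M : ℕ} (hM : ∀ x, inc r x ≤ M) :
    Concl r (1 / 3 + 1 / (6 * (M : ℝ) ^ 3)) := by
  have hirr := semi_irr h.hg
  have hM1 : 1 ≤ M := by
    refine le_trans ?_ (hM (X 0))
    rw [← card_incS (hirr (X 0))]; omega
  obtain ⟨i, hi, hsmall⟩ := h.exists_small hn
  have hgxy : g (X i) ≤ g (X (i + 1)) := h.mono i (i + 1) (Nat.le_succ i) hi
  have hDsub : (univ.filter (fun w => r w (X i))) ⊆ (univ.filter (fun w => r w (X (i + 1)))) := by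
    intro w hw
    simp only [mem_filter, mem_univ, true_and] at hw ⊢
    rw [h.hg] at hw ⊢; linarith
  have hUsub : (univ.filter (fun w => r (X (i + 1)) w)) ⊆ (univ.filter (fun w => r (X i) w)) := by
    intro w hw
    simp only [mem_filter, mem_univ, true_and] at hw ⊢
    rw [h.hg] at hw ⊢; linarith
  have h1 : dn r (X i) ≤ dn r (X (i + 1)) := card_le_card hDsub
  have h2 : up r (X (i + 1)) ≤ up r (X i) := card_le_card hUsub
  by_cases hA : up r (X i) = up r (X (i + 1))
  · by_cases hB : dn r (X (i + 1)) = dn r (X i)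
    · -- twins
      have hDeq := eq_of_subset_of_card_le hDsub hB.le
      have hUeq := eq_of_subset_of_card_le hUsub hA.le
      left
      have hxy : X i ≠ X (i + 1) := by
        intro he
        have := h.inj i (i + 1) (by omega) hi he
        omega
      obtain ⟨h3, h4⟩ := twins (r := r) hxy (h.cons i hi) (by rw [h.hg]; linarith)
        (fun w => by
          have : w ∈ (univ.filter (fun w => r w (X i))) ↔
              w ∈ (univ.filter (fun w => r w (X (i + 1)))) := by rw [hDeq]
          simpa using this)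
        (fun w => by
          have : w ∈ (univ.filter (fun w => r (X (i + 1)) w)) ↔
              w ∈ (univ.filter (fun w => r (X i) w)) := by rw [hUeq]
          simpa using this.symm)
      have hN : (0 : ℝ) ≤ (Lin r).card := Nat.cast_nonneg _
      have hMR : (1 : ℝ) ≤ M := by exact_mod_cast hM1
      have hM3 : (1 : ℝ) ≤ (M : ℝ) ^ 3 := one_le_pow₀ hMR
      have hcle : 1 / 3 + 1 / (6 * (M : ℝ) ^ 3) ≤ 1 / 2 := by
        have : 1 / (6 * (M : ℝ) ^ 3) ≤ 1 / 6 := by
          apply one_div_le_one_div_of_le (by norm_num); linarith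
        linarith
      exact ⟨X i, X (i + 1), hxy, (mul_le_mul_of_nonneg_right hcle hN).trans h3,
        (mul_le_mul_of_nonneg_right hcle hN).trans h4⟩
    · -- one separating element below
      apply Concl.flip
      have hf := h.flip
      refine hf.caseU (M := M) (fun x => by rw [inc_flip]; exact hM x) hM1 (n - 1 - (i + 1))
        (by omega) ?_ ?_
      · rw [show n - 1 - (n - 1 - (i + 1) + 1) = i by omega,
          show n - 1 - (n - 1 - (i + 1)) = i + 1 by omega]
        exact hA.le
      · rw [show n - 1 - (n - 1 - (i + 1) + 1) = i by omega,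
          show n - 1 - (n - 1 - (i + 1)) = i + 1 by omega]
        show dn r (X (i + 1)) = dn r (X i) + 1
        omega
  · exact h.caseU hM hM1 i hi (by omega) (by omega)

end Pool.Agent.TH447.KS
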