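import Mathlib
import Pool.Agent.TH447.KS.Semi
import Pool.Agent.TH447.KS.IntFin
import Pool.Agent.H931R3.Bal15

set_option autoImplicit false

/-!
# The gap above one third for semiorders
-/

open Finset Classical

namespace Pool.Agent.TH447.KS

open Pool.Agent.H13R3.WB Pool.Agent.H931R3.Bal

/-- semiorders: `x < y` if and only if the value of `y` exceeds the value of `x` by more than
one -/
def IsSemiorder (P : Type) [PartialOrder P] : Prop :=
  ∃ g : P → ℝ, ∀ x y : P, x < y ↔ g x + 1 < g y

lemma exists_max_anti {P : Type} [Fintype P] (r : P → P → Prop) :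
    ∃ A : Finset P, (∀ a ∈ A, ∀ b ∈ A, ¬ r a b) ∧
      ∀ B : Finset P, (∀ a ∈ B, ∀ b ∈ B, ¬ r a b) → B.card ≤ A.card := by
  obtain ⟨A, hA, hmax⟩ := exists_max_image
    ((univ : Finset (Finset P)).filter (fun B => ∀ a ∈ B, ∀ b ∈ B, ¬ r a b)) Finset.card
    ⟨∅, by simp⟩
  rw [mem_filter] at hA
  exact ⟨A, hA.2, fun B hB => hmax B (by simpa using hB)⟩

lemma harm_num (w : ℕ) (hw : 41 ≤ w) :
    (harmonic (2 * w - 1) : ℝ) / ((w - 1 : ℕ) : ℝ) ≤ 4 / 25 := by
  have hwR : (41 : ℝ) ≤ w := by exact_mod_cast hw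
  have h1 : ((w - 1 : ℕ) : ℝ) = w - 1 := by
    rw [Nat.cast_sub (by omega)]; simp
  rw [h1, div_le_iff₀ (by linarith)]
  have h2 := harmonic_le_one_add_log (2 * w - 1)
  have h3 : Real.log ((2 * w - 1 : ℕ) : ℝ) ≤ Real.log (2 * w) := by
    apply Real.log_le_log
    · have : 0 < 2 * w - 1 := by omega
      exact_mod_cast this
    · have : ((2 * w - 1 : ℕ) : ℝ) ≤ ((2 * w : ℕ) : ℝ) := by exact_mod_cast Nat.sub_le _ _
      push_cast at this
      exact this
  have h4 : Real.log (2 * w) ≤ 6 * Real.log 2 + (w : ℝ) / 32 - 1 := by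
    have e : (2 * (w : ℝ)) = 2 ^ 6 * ((w : ℝ) / 32) := by ring
    rw [e, Real.log_mul (by norm_num) (by positivity), Real.log_pow]
    have := Real.log_le_sub_one_of_pos (show 0 < (w : ℝ) / 32 by positivity)
    push_cast
    linarith
  have h5 := Real.log_two_lt_d9
  have h6 : (harmonic (2 * w - 1) : ℝ) ≤ 1 + Real.log ((2 * w - 1 : ℕ) : ℝ) := h2
  nlinarith

/-- a poset splits at a set that lies below its complement -/
noncomputable def splitIso {P : Type} [PartialOrder P] (S : Set P)
    (h : ∀ p ∈ S, ∀ q, q ∉ S → p < q) : (↥S ⊕ₗ ↥(Sᶜ)) ≃o P where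
  toEquiv := ofLex.trans (Equiv.Set.sumCompl S)
  map_rel_iff' := by
    intro a b
    rcases a with a | a <;> rcases b with b | b
    · show (a : P) ≤ (b : P) ↔ _
      exact (Sum.Lex.inl_le_inl_iff (a := a) (b := b)).symm
    · show (a : P) ≤ (b : P) ↔ _
      constructor
      · intro _; exact Sum.Lex.sep _ _
      · intro _; exact (h a a.2 b b.2).le
    · show (a : P) ≤ (b : P) ↔ _
      constructor
      · intro h'
        exact absurd ((h b b.2 a a.2).trans_le h') (lt_irrefl _)
      · intro h'; exact absurd h' Sum.Lex.not_inr_le_inl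
    · show (a : P) ≤ (b : P) ↔ _
      exact (Sum.Lex.inr_le_inr_iff (a := a) (b := b)).symm

/-- the exceptional poset lies in the class -/
lemma inD_of_isE {P : Type} [PartialOrder P] (h : IsE (lt' P)) : InD P := by
  obtain ⟨a, b, c, hab, hbc, hac, hall, rac, nab, nba, nbc, ncb⟩ := h
  simp only [lt'] at rac nab nba nbc ncb
  apply InD.three
  let φ : Fin 2 ⊕ Fin 1 → P := fun s => match s with
    | Sum.inl i => if i = 0 then a else c
    | Sum.inr _ => b
  have e0 : φ (Sum.inl 0) = a := rfl
  have e1 : φ (Sum.inl 1) = c := rfl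
  have e2 : φ (Sum.inr 0) = b := rfl
  have hinj : Function.Injective φ := by
    intro s t hst
    rcases s with i | i <;> rcases t with j | j <;> fin_cases i <;> fin_cases j <;>
      simp only [Fin.zero_eta, Fin.mk_one, Fin.isValue, e0, e1, e2] at hst ⊢
    · exact absurd hst hac
    · exact absurd hst.symm hac
    · exact absurd hst hab
    · exact absurd hst.symm hbc
    · exact absurd hst.symm hab
    · exact absurd hst hbc
  have hsurj : Function.Surjective φ := by
    intro p
    rcases hall p with rfl | rfl | rfl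
    · exact ⟨Sum.inl 0, rfl⟩
    · exact ⟨Sum.inr 0, rfl⟩
    · exact ⟨Sum.inl 1, rfl⟩
  have nle : ∀ {u v : P}, u ≠ v → ¬ u < v → ¬ u ≤ v := fun h1 h2 h3 => h2 (lt_of_le_of_ne h3 h1)
  refine ⟨OrderIso.symm ⟨Equiv.ofBijective φ ⟨hinj, hsurj⟩, ?_⟩⟩
  intro s t
  show φ s ≤ φ t ↔ s ≤ t
  rcases s with i | i <;> rcases t with j | j <;> fin_cases i <;> fin_cases j <;>
    simp only [Fin.zero_eta, Fin.mk_one, Fin.isValue, e0, e1, e2, le_refl, Sum.inl_le_inl_iff,
      Sum.not_inl_le_inr, Sum.not_inr_le_inl, iff_false, iff_true, Sum.inr_le_inr_iff]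
  · simpa using rac.le
  · have h1 : ¬ c ≤ a := fun h => lt_irrefl _ (rac.trans_le h)
    simpa using h1
  · exact nle hab nab
  · exact nle hbc.symm ncb
  · exact nle hab.symm nba
  · exact nle hbc nbc

/-- **The gap for semiorders.** -/
theorem semi_gap : ∀ (N : ℕ) (P : Type) [Fintype P] [PartialOrder P] [Nonempty P],
    Fintype.card P = N → IsSemiorder P → InD P ∨ 1 / 3 + 1 / 3000000 ≤ balance P := by
  intro N
  induction N using Nat.strong_induction_on with
  | _ N ih =>
    intro P _ _ _ hN hP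
    obtain ⟨g, hg⟩ := hP
    have hg' : ∀ a b, lt' P a b ↔ g a + 1 < g b := hg
    have hcard0 : 0 < (univ : Finset P).card := by
      rw [card_univ]; exact Fintype.card_pos
    obtain ⟨X, -, hinj, hsurj, hmono⟩ := exists_sorted (univ : Finset P) g hcard0
    rw [card_univ, hN] at hinj hsurj
    by_cases hcons : ∀ i, i + 1 < N → ¬ X i < X (i + 1)
    · -- consecutive elements are incomparable
      have hsrt : Srt (lt' P) g N X := by
        refine ⟨hN, hg', hinj, fun a => ?_, fun i j hij _ => hmono i j hij, hcons⟩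
        exact hsurj a (mem_univ a)
      by_cases hN1 : N = 1
      · left
        apply InD.one
        have h1 : Fintype.card P = 1 := by rw [hN, hN1]
        obtain ⟨u⟩ := Fintype.card_eq_one_iff_nonempty_unique.1 h1
        exact ⟨OrderIso.ofUnique P (Fin 1)⟩
      · have hN2 : 2 ≤ N := by
          have : 0 < N := by rw [← hN]; exact Fintype.card_pos
          omega
        obtain ⟨A, hA, hmax⟩ := exists_max_anti (lt' P)
        by_cases hw : 41 ≤ A.card
        · right
          obtain ⟨x, y, hxy, h⟩ := semi_large hg' (w := A.card) hmax A hA rfl (by omega)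
          obtain ⟨h1, h2⟩ := half_of_abs' hxy h
          refine le_trans ?_ (le_balance_of_cnt h1 h2)
          have := harm_num A.card hw
          linarith
        · have hinc : ∀ x, inc (lt' P) x ≤ 79 := by
            intro x
            have := semi_inc hg' hmax x
            omega
          rcases hsrt.main hN2 hinc with ⟨p, q, -, h1, h2⟩ | h
          · right
            refine le_trans ?_ (le_balance_of_cnt h1 h2)
            norm_num
          · exact Or.inl (inD_of_isE h)
    · -- the poset splits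
      push Not at hcons
      obtain ⟨i, hi, hlt⟩ := hcons
      set S : Set P := {p | g p ≤ g (X i)} with hS
      have hgi : g (X i) + 1 < g (X (i + 1)) := (hg _ _).1 hlt
      have hout : ∀ q, q ∉ S → g (X (i + 1)) ≤ g q := by
        intro q hq
        obtain ⟨k, hk, rfl⟩ := hsurj q (mem_univ q)
        have hk' : i + 1 ≤ k := by
          by_contra hcon
          exact hq (hmono k i (by omega))
        exact hmono (i + 1) k hk'
      have hsplit : ∀ p ∈ S, ∀ q, q ∉ S → p < q := by
        intro p hp q hq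
        rw [hg]
        have h1 : g p ≤ g (X i) := hp
        have h2 := hout q hq
        linarith
      have e := splitIso S hsplit
      have hne1 : Nonempty S := ⟨⟨X i, le_refl (g (X i))⟩⟩
      have hne2 : Nonempty (Sᶜ : Set P) := ⟨⟨X (i + 1), by
        intro h
        have : g (X (i + 1)) ≤ g (X i) := h
        linarith⟩⟩
      have hc : Fintype.card S + Fintype.card (Sᶜ : Set P) = N := by
        rw [← hN, ← Fintype.card_sum]
        exact Fintype.card_congr (Equiv.Set.sumCompl S)
      have p1 : 0 < Fintype.card S := Fintype.card_pos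
      have p2 : 0 < Fintype.card (Sᶜ : Set P) := Fintype.card_pos
      have g1 := ih (Fintype.card S) (by omega) S rfl ⟨fun p => g p, fun x y => hg x y⟩
      have g2 := ih (Fintype.card (Sᶜ : Set P)) (by omega) (Sᶜ : Set P) rfl
        ⟨fun p => g p, fun x y => hg x y⟩
      have hne : Nonempty (↥S ⊕ₗ ↥(Sᶜ)) := ⟨e.symm (X i)⟩
      rcases gap_lex g1 g2 with h3 | h3
      · exact Or.inl (InD.iso h3 e)
      · exact Or.inr (h3.trans (balance_iso e))

/-- infimum of the balance constants of the semiorders of width `w` -/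
noncomputable def dS (w : ℕ) : ℝ :=
  sInf {d : ℝ | ∃ (P : Type) (_ : Fintype P) (_ : PartialOrder P), IsSemiorder P ∧
    HasWidth P w ∧ balance P = d}

lemma HasWidth.nonempty {P : Type} [PartialOrder P] {w : ℕ} (h : HasWidth P w) (hw : 1 ≤ w) :
    Nonempty P := by
  obtain ⟨⟨A, _, hAc⟩, _⟩ := h
  obtain ⟨x, _⟩ := Finset.card_pos.1 (show 0 < A.card by omega)
  exact ⟨x⟩

lemma exists_semi (w : ℕ) : ∃ (P : Type) (_ : Fintype P) (_ : PartialOrder P),
    IsSemiorder P ∧ HasWidth P w := by
  letI : PartialOrder (CT w) := poOf (fun a b => a = b)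
    ⟨fun _ => rfl, fun _ _ _ h1 h2 => h1.trans h2, fun _ _ h _ => h⟩
  refine ⟨CT w, inferInstance, inferInstance, ⟨fun _ => 0, ?_⟩, ⟨univ, ?_, ?_⟩, ?_⟩
  · intro x y
    constructor
    · intro h
      exact absurd (show x = y from h.le) h.ne
    · intro h; norm_num at h
  · intro x _ y _ hxy h
    exact hxy h
  · rw [card_univ]
    exact Fintype.card_fin w
  · intro s _
    refine (card_le_univ s).trans ?_
    exact (Fintype.card_fin w).le

lemma dS_ge {w : ℕ} {c : ℝ} (h : ∀ (P : Type) [Fintype P] [PartialOrder P],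
    IsSemiorder P → HasWidth P w → c ≤ balance P) : c ≤ dS w := by
  unfold dS
  apply le_csInf
  · obtain ⟨P, i1, i2, h1, h2⟩ := exists_semi w
    exact ⟨_, P, i1, i2, h1, h2, rfl⟩
  · rintro d ⟨P, _, _, h1, h2, rfl⟩
    exact h P h1 h2

lemma dS_le {w : ℕ} (hw : 1 ≤ w) (P : Type) [Fintype P] [PartialOrder P] (h1 : IsSemiorder P)
    (h2 : HasWidth P w) : dS w ≤ balance P := by
  unfold dS
  apply csInf_le
  · refine ⟨0, ?_⟩
    rintro d ⟨Q, _, _, h3, h4, rfl⟩
    have := HasWidth.nonempty h4 hw
    exact balance_nonneg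
  · exact ⟨P, inferInstance, inferInstance, h1, h2, rfl⟩

theorem dS_one : dS 1 = 0 := by
  apply le_antisymm
  · obtain ⟨P, i1, i2, h1, h2⟩ := exists_semi 1
    have hne := HasWidth.nonempty h2 le_rfl
    refine (dS_le le_rfl P h1 h2).trans ?_
    rw [balance_chain (total_of_width_one h2)]
  · apply dS_ge
    intro P _ _ _ h2
    have := HasWidth.nonempty h2 le_rfl
    exact balance_nonneg

theorem dS_two : dS 2 = 1 / 3 := by
  apply le_antisymm
  · refine (dS_le (by norm_num) EE ?_ width_EE).trans balance_EE_le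
    refine ⟨fun s => match s with
      | Sum.inl i => if i = 0 then 0 else 2
      | Sum.inr _ => 1, ?_⟩
    intro x y
    rw [lt_iff_le_not_ge]
    rcases x with i | i <;> rcases y with j | j <;> fin_cases i <;> fin_cases j <;>
      simp <;> norm_num
  · apply dS_ge
    intro P _ _ h1 h2
    have := HasWidth.nonempty h2 (by norm_num)
    rcases semi_gap _ P rfl h1 with h | h
    · rcases InD_third h with h3 | h3
      · exact absurd h3 (not_total_of_width le_rfl h2)
      · exact h3
    · linarith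

theorem dS_large {w : ℕ} (hw : 3 ≤ w) : 1 / 3 + 1 / 3000000 ≤ dS w := by
  apply dS_ge
  intro P _ _ h1 h2
  have := HasWidth.nonempty h2 (by omega)
  rcases semi_gap _ P rfl h1 with h | h
  · exfalso
    obtain ⟨⟨s, hs, hsc⟩, _⟩ := h2
    have := InD_width_le h s hs
    omega
  · exact h

/-- **Semiorders of width `w`.** -/
theorem semi_width {w : ℕ} (hw : 2 ≤ w) (P : Type) [Fintype P] [PartialOrder P]
    (h1 : IsSemiorder P) (h2 : HasWidth P w) :
    1 / 2 - (1 + Real.log (2 * w)) / (w - 1) ≤ balance P := by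
  obtain ⟨g, hg⟩ := h1
  have hg' : ∀ a b, lt' P a b ↔ g a + 1 < g b := hg
  obtain ⟨⟨A, hA, hAc⟩, hmax⟩ := h2
  obtain ⟨x, y, hxy, h⟩ := semi_large hg' (w := w) (fun B hB => hmax B (anti_iff.2 hB)) A
    (anti_iff.1 hA) hAc hw
  obtain ⟨h3, h4⟩ := half_of_abs' hxy h
  refine le_trans ?_ (le_balance_of_cnt h3 h4)
  have hwR : (2 : ℝ) ≤ w := by exact_mod_cast hw
  have h5 : ((w - 1 : ℕ) : ℝ) = w - 1 := by
    rw [Nat.cast_sub (by omega)]; simp
  rw [h5]
  have h6 : (harmonic (2 * w - 1) : ℝ) ≤ 1 + Real.log (2 * w) := by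
    refine (harmonic_le_one_add_log (2 * w - 1)).trans ?_
    have h7 : Real.log ((2 * w - 1 : ℕ) : ℝ) ≤ Real.log (2 * w) := by
      apply Real.log_le_log
      · have : 0 < 2 * w - 1 := by omega
        exact_mod_cast this
      · have : ((2 * w - 1 : ℕ) : ℝ) ≤ ((2 * w : ℕ) : ℝ) := by exact_mod_cast Nat.sub_le _ _
        push_cast at this
        exact this
    linarith
  have h8 : (harmonic (2 * w - 1) : ℝ) / (w - 1) ≤ (1 + Real.log (2 * w)) / (w - 1) :=
    div_le_div_of_nonneg_right h6 (by linarith)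
  linarith

end Pool.Agent.TH447.KS
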